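import Pool.Agent.Lib.MP_99c1f3_lc.CG.B.Succ

/-!
# CG3, module B.AlO: the cardinal `ℵ_ω`
-/

set_option autoImplicit false

namespace Pool.Agent.CG3

open Pool.Agent.MPa4e7db Pool.Agent.Lib.SymModel Pool.Agent.StarRoth.BV Pool.Agent.MP_5db68c_lc
open Pool.Agent.KSt

variable {P : Type 1} [Preorder P]

theorem Fw.ord_mono {W : Type 1} [LinearOrder W] [WellFoundedLT W] {v w : W} (h : v ≤ w) {p : P}
    {t : BName (RO P)} (h1 : p ∈ memB t (ordW (RO P) v)) : p ∈ memB t (ordW (RO P) w) := by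
  refine Fr.dense fun q hq => ?_
  obtain ⟨r, hr, u, hu, h2⟩ := Fw.ord_ex (Fr.down h1 hq)
  exact ⟨r, hr, Fw.ord_mk (lt_of_lt_of_le hu h) h2⟩

theorem alO_of {Z : Type 1} [LinearOrder Z] [WellFoundedLT Z] (z : ℕ → Z)
    (N : ℕ → BName (RO P)) (h : ∀ n (p : P), p ∈ eqB (ordW (RO P) (z n)) (N n))
    (h0 : N 0 = omegaN) (hs : ∀ n (p : P), FSucc p (N (n + 1)) (N n)) (hc : ∀ a, ∃ n, a ≤ z n)
    (p : P) : FAlO p (kapW (RO P) Z) omegaN where
  ord := Fw.kap_ord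
  mem := Fw.kap_mk (z 0) (by rw [← h0]; exact Fr.symm (h 0 p))
  up α q hq hα := by
    obtain ⟨r, hr, a, ha⟩ := Fw.kap_ex hα
    obtain ⟨n, hn⟩ := hc a
    refine ⟨r, hr, ordW (RO P) (z (n + 1)), Fw.mem_kap _, fun s hs' f hf => ?_⟩
    have h1 : FInj s f (N (n + 1)) α := hf.congr (h (n + 1) s)
    refine (hs n s).no s le_rfl f ⟨h1.fn, fun x y t ht hy => ?_, h1.inj⟩
    have h2 : t ∈ memB y (ordW (RO P) a) :=
      Fr.mem_right (Fr.down ha (ht.trans hs')) (h1.into x y t ht hy)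
    exact Fr.mem_right (h n t) (Fw.ord_mono hn h2)
  lo K q hq hK hw := by
    obtain ⟨r, hr, a, ha⟩ := Fw.kap_ex hK
    have h1 : z 0 < a := by
      refine (Fw.ord_mem_ord (p := r)).1 (Fr.mem_right ha ?_)
      refine Fr.mem_left ?_ (Fr.down hw hr)
      rw [← h0]
      exact Fr.symm (h 0 r)
    classical
    obtain ⟨n, hn, hmin⟩ : ∃ n, a ≤ z n ∧ ∀ m < n, ¬ a ≤ z m :=
      ⟨Nat.find (hc a), Nat.find_spec (hc a), fun m hm => Nat.find_min (hc a) hm⟩
    obtain ⟨m, rfl⟩ : ∃ m, n = m + 1 := by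
      rcases Nat.eq_zero_or_pos n with h2 | h2
      · subst h2
        exact absurd h1 (not_lt.2 hn)
      · exact ⟨n - 1, by omega⟩
    have h2 : z m < a := not_le.1 (hmin m (Nat.lt_succ_self m))
    refine ⟨r, hr, ordW (RO P) (z m), Fr.mem_right (Fr.symm ha) (Fw.ord_mem_ord.2 h2),
      fun β s hs' hβ => ?_⟩
    have h3 : s ∈ memB β (N (m + 1)) :=
      Fr.mem_right (h (m + 1) s) (Fw.ord_mono hn (Fr.mem_right (Fr.down ha hs') hβ))
    obtain ⟨t, ht, f, hf⟩ := (hs m s).le β s le_rfl h3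
    exact ⟨t, ht, f, FInj.congr_cod hf (Fr.symm (h m t))⟩

/-! ### The levels -/

theorem rho_lt (n : ℕ) : rho n < iSup rho :=
  lt_of_lt_of_le (lt_of_lt_of_le (Cardinal.cantor (rho n)) (Order.le_succ (2 ^ rho n)))
    (le_ciSup (Cardinal.bddAbove_range rho) (n + 1))

theorem kap_lt : kap < iSup rho :=
  lt_trans (lt_of_lt_of_le (Cardinal.cantor kap) (Order.le_succ (2 ^ kap))) (rho_lt 0)

/-- The well-ordered type `ℵ_ω` of the extension. -/
abbrev Zt : Type 1 := (iSup rho).ord.ToType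

theorem seg_ex {V : Type 1} [LinearOrder V] [WellFoundedLT V] (h : Cardinal.mk V < iSup rho) :
    ∃ (z : Zt) (f : V → Zt), StrictMono f ∧ ∀ w, w < z ↔ ∃ v, f v = w := by
  have h1 : Ordinal.type (α := V) (· < ·) < Ordinal.type (α := Zt) (· < ·) := by
    rw [Ordinal.type_toType, Cardinal.lt_ord, Ordinal.card_type]
    exact h
  obtain ⟨g⟩ := Ordinal.type_lt_iff.1 h1
  exact ⟨g.top, g, fun a b hab => g.map_rel_iff.2 hab, fun w => g.mem_range_iff_rel.symm⟩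

/-- The names of the levels. -/
noncomputable def Nc (P : Type 1) [Preorder P] : ℕ → BName (RO P)
  | 0 => omegaN
  | 1 => kapW (RO P) K0
  | 2 => kapW (RO P) L
  | n + 3 => kapW (RO P) (R n)

theorem succ_Nc (H : Facts P) (n : ℕ) (p : P) : FSucc p (Nc P (n + 1)) (Nc P n) :=
  match n with
  | 0 => succ0 H p
  | 1 => succ1 H p
  | 2 => succ2 H p
  | n + 3 => succ3 H n p

theorem exists_z (P : Type 1) [Preorder P] : ∃ z : ℕ → Zt,
    (∀ n (p : P), p ∈ eqB (ordW (RO P) (z n)) (Nc P n)) ∧ (∀ a, ∃ n, a ≤ z (n + 3)) := by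
  obtain ⟨z0, f0, hf0, hz0⟩ := seg_ex (V := ULift.{1} ℕ) (by
    rw [Cardinal.mk_uLift, Cardinal.mk_nat, Cardinal.lift_aleph0]
    refine lt_of_le_of_lt ?_ kap_lt
    exact Cardinal.aleph0_le_mk K0)
  obtain ⟨z1, f1, hf1, hz1⟩ := seg_ex (V := K0) kap_lt
  obtain ⟨z2, f2, hf2, hz2⟩ := seg_ex (V := L) (by
    rw [Cardinal.mk_ord_toType]
    refine lt_of_le_of_lt ?_ (rho_lt 0)
    exact (Order.succ_le_of_lt (Cardinal.cantor kap)).trans (Order.le_succ _))
  choose z f hf hz using fun n : ℕ => seg_ex (V := R n) (by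
    rw [Cardinal.mk_ord_toType]
    exact rho_lt n)
  refine ⟨fun n => match n with
    | 0 => z0
    | 1 => z1
    | 2 => z2
    | n + 3 => z n, ?_, ?_⟩
  · intro n p
    match n with
    | 0 => exact Fr.trans (kapW_seg hf0 hz0) Fw.omega_eq
    | 1 => exact kapW_seg hf1 hz1
    | 2 => exact kapW_seg hf2 hz2
    | n + 3 => exact kapW_seg (hf n) (hz n)
  · intro a
    have h1 : Cardinal.mk (Set.Iio a) < iSup rho := Cardinal.mk_Iio_ord_toType a
    obtain ⟨n, hn⟩ := exists_lt_of_lt_ciSup h1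
    refine ⟨n, ?_⟩
    show a ≤ z n
    by_contra hlt
    rw [not_le] at hlt
    have h2 : Cardinal.mk (R n) ≤ Cardinal.mk (Set.Iio a) :=
      Cardinal.mk_le_of_injective (f := fun v : R n =>
        (⟨f n v, ((hz n _).2 ⟨v, rfl⟩).trans hlt⟩ : Set.Iio a))
        fun v v' h => (hf n).injective (Subtype.ext_iff.1 h)
    rw [Cardinal.mk_ord_toType] at h2
    exact absurd hn (not_lt.2 h2)

theorem alO (H : Facts P) (p : P) : FAlO p (kapW (RO P) Zt) omegaN := by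
  obtain ⟨z, hz, hc⟩ := exists_z P
  exact alO_of z (Nc P) hz rfl (succ_Nc H) (fun a => by
    obtain ⟨n, hn⟩ := hc a
    exact ⟨n + 3, hn⟩) p

end Pool.Agent.CG3
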