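import Pool.Agent.Lib.MP_99c1f3_lc.CG.B.Star2
import Pool.Agent.Lib.MP_a1c723_lc.BV.Model

/-!
# CG3, module B.Asm: a countable model of ZFC in which the statement `StM` holds
-/

set_option autoImplicit false

namespace Pool.Agent.CG3

open Pool.Agent.MPa4e7db Pool.Agent.Lib.SymModel Pool.Agent.StarRoth.BV Pool.Agent.MP_5db68c_lc
open Pool.Agent.KSt

variable {P : Type 1} [Preorder P]

/-- The statement is forced by every condition. -/
theorem force_fStM (H : Facts P) (v : ℕ → BName (RO P)) (p : P) : p ∈ val fStM v := by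
  simp only [fStM, Fc.ex, Fc.and, Vl.omega]
  intro q _
  refine ⟨q, le_rfl, omegaN, fun q1 _ => ⟨q1, le_rfl, kapW (RO P) K0, fun q2 _ =>
    ⟨q2, le_rfl, kapW (RO P) L, fun q3 _ => ⟨q3, le_rfl, kapW (RO P) (R 0), fun q4 _ =>
      ⟨q4, le_rfl, kapW (RO P) Zt, ?_, ?_, ?_, ?_, ⟨?_, ?_⟩, ?_⟩⟩⟩⟩⟩
  · exact Fr.top (by rw [isOmegaB_eq]; exact eqB_refl _) q4
  · exact fSucc_of _ (succ0 H q4)
  · exact fSucc_of _ (succ1 H q4)
  · exact fSucc_of _ (succ2 H q4)
  · exact fAlO_of _ (alO H q4)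
  · exact fStL_of _ (stL H q4)
  · refine fStar_of _ fun r _ => ?_
    exact ⟨r, le_rfl, star_of H r⟩

/-- The forcing gives a countable model of ZFC in which the statement holds. -/
theorem model_of_facts (H : Facts P) :
    ∃ (M : Type) (_ : Membership M M), Countable M ∧ ModelZFC M ∧ StM M := by
  obtain ⟨p⟩ := H.ne
  have hB : (⊥ : RO P) ≠ ⊤ := by
    intro hbt
    have h1 : p ∈ (⊤ : RO P) := RO.mem_top p
    rw [← hbt] at h1
    exact RO.notMem_bot p h1
  obtain ⟨G⟩ := Mdl.exists_genData hB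
  have h2 : ∀ v : ℕ → BName (RO P), val fStM v = ⊤ := by
    intro v
    rw [eq_top_iff]
    intro q _
    exact force_fStM H v q
  have h3 : Nonempty G.Md := ⟨G.cls 0⟩
  obtain ⟨m⟩ := h3
  refine ⟨G.Md, inferInstance, ?_, G.modelZFC, (sat_fStM (fun _ => m)).1 (G.sat_of_top h2 _)⟩
  exact Function.Surjective.countable (f := G.cls) G.cls_surj

end Pool.Agent.CG3
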