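import Pool.Agent.Lib.MP_99c1f3_lc.CG.B.Succ

/-!
# CG3, module B.Cof: a limit `d : L` has a ladder of length `κ` or a small cofinal set
-/

set_option autoImplicit false

namespace Pool.Agent.CG3

namespace Cof

/-- The next point: the least strict upper bound of the previous points and of the values of `g`,
or `d`. -/
noncomputable def nxt (d : L) (g : K0 → L) : K0 → L :=
  (wellFounded_lt (α := K0)).fix fun ν rec =>
    WellFounded.min (wellFounded_lt (α := L))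
      {y : L | y = d ∨ ∀ ν' (h : ν' < ν), rec ν' h < y ∧ g ν' < y} ⟨d, Or.inl rfl⟩

theorem nxt_eq (d : L) (g : K0 → L) (ν : K0) : nxt d g ν =
    WellFounded.min (wellFounded_lt (α := L))
      {y : L | y = d ∨ ∀ ν' < ν, nxt d g ν' < y ∧ g ν' < y} ⟨d, Or.inl rfl⟩ := by
  unfold nxt
  exact WellFounded.fix_eq _ _ _

theorem nxt_mem (d : L) (g : K0 → L) (ν : K0) :
    nxt d g ν = d ∨ ∀ ν' < ν, nxt d g ν' < nxt d g ν ∧ g ν' < nxt d g ν := by
  have h := WellFounded.min_mem (wellFounded_lt (α := L))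
    {y : L | y = d ∨ ∀ ν' < ν, nxt d g ν' < y ∧ g ν' < y} ⟨d, Or.inl rfl⟩
  rw [← nxt_eq] at h
  exact h

theorem nxt_le (d : L) (g : K0 → L) (ν : K0) {y : L}
    (hy : y = d ∨ ∀ ν' < ν, nxt d g ν' < y ∧ g ν' < y) : nxt d g ν ≤ y := by
  rw [nxt_eq]
  exact WellFounded.min_le (wellFounded_lt (α := L))
    (s := {y : L | y = d ∨ ∀ ν' < ν, nxt d g ν' < y ∧ g ν' < y}) hy

end Cof

theorem ladder_or_small (d : L) (h0 : ∃ α, α < d) (hd : ∀ α < d, ∃ β < d, α < β) :
    (∃ l, IsLad d l) ∨ ∃ (α : K0) (f : Set.Iio α → L), (∀ i, f i < d) ∧ ∀ a < d, ∃ i, a < f i := by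
  classical
  obtain ⟨e, he⟩ := exists_injL d
  obtain ⟨a0, ha0⟩ := h0
  haveI : Nonempty {x : L // x < d} := ⟨⟨a0, ha0⟩⟩
  let g : K0 → L := fun ν => (Function.invFun e ν).1
  have hg : ∀ ν, g ν < d := fun ν => (Function.invFun e ν).2
  have hgs : ∀ a < d, ∃ ν, g ν = a := fun a ha => ⟨e ⟨a, ha⟩, by
    show (Function.invFun e (e ⟨a, ha⟩)).1 = a
    rw [Function.leftInverse_invFun he ⟨a, ha⟩]⟩
  by_cases h : ∃ ν, Cof.nxt d g ν = d
  · right
    obtain ⟨ν, hν, hmin⟩ := WellFounded.has_min (wellFounded_lt (α := K0))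
      {ν | Cof.nxt d g ν = d} h
    have hlt : ∀ ν' < ν, Cof.nxt d g ν' < d := by
      intro ν' h1
      have h2 : Cof.nxt d g ν' ≤ d := Cof.nxt_le d g ν' (Or.inl rfl)
      exact lt_of_le_of_ne h2 fun h3 => hmin ν' h3 h1
    refine ⟨ν, fun i => max (Cof.nxt d g i.1) (g i.1), fun i => max_lt (hlt i.1 i.2) (hg i.1),
      fun a ha => ?_⟩
    obtain ⟨b, hb, hab⟩ := hd a ha
    by_contra hcon
    push Not at hcon
    have h1 : Cof.nxt d g ν ≤ b := Cof.nxt_le d g ν (Or.inr fun ν' hν' => by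
      have h2 := hcon ⟨ν', hν'⟩
      exact ⟨((le_max_left _ _).trans h2).trans_lt hab,
        ((le_max_right _ _).trans h2).trans_lt hab⟩)
    have h3 : Cof.nxt d g ν = d := hν
    rw [h3] at h1
    exact absurd hb (not_lt.2 h1)
  · left
    push Not at h
    have hlt : ∀ ν, Cof.nxt d g ν < d := fun ν =>
      lt_of_le_of_ne (Cof.nxt_le d g ν (Or.inl rfl)) (h ν)
    have hup : ∀ ν, ∀ ν' < ν, Cof.nxt d g ν' < Cof.nxt d g ν ∧ g ν' < Cof.nxt d g ν := fun ν =>
      (Cof.nxt_mem d g ν).resolve_left (h ν)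
    refine ⟨Cof.nxt d g, fun a b hab => (hup b a hab).1, hlt, fun a ha => ?_, fun ν hν a ha => ?_⟩
    · obtain ⟨ν, rfl⟩ := hgs a ha
      exact ⟨Order.succ ν, (hup _ ν (Order.lt_succ ν)).2⟩
    · by_contra hcon
      push Not at hcon
      refine absurd (Cof.nxt_le d g ν (y := a) (Or.inr fun ν' hν' => ?_)) (not_le.2 ha)
      have h1 : Order.succ ν' < ν := hν.succ_lt hν'
      have h2 := hup (Order.succ ν') ν' (Order.lt_succ ν')
      have h3 := hcon (Order.succ ν') h1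
      exact ⟨h2.1.trans_le h3, h2.2.trans_le h3⟩

end Pool.Agent.CG3
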