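import Pool.Agent.Lib.MP_d9d638_lc.KS.B.W1

/-!
# CG3, module B.Nm: names of ordinals and of relations, in any universe

The ordinals are the well-ordered types `W : Type u` and their elements (in the project KS the
well-ordered types are in `Type`).
-/

set_option autoImplicit false

namespace Pool.Agent.CG3

open Pool.Agent.MPa4e7db Pool.Agent.Lib.SymModel Pool.Agent.StarRoth.BV Pool.Agent.KSt

universe u

/-! ### Ordinals -/

section

variable {B : Type u} [CompleteBooleanAlgebra B] {W : Type u} [LinearOrder W] [WellFoundedLT W]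

/-- The canonical name of (the von Neumann ordinal of) `w : W`. -/
noncomputable def ordW (B : Type u) [CompleteBooleanAlgebra B] {W : Type u} [LinearOrder W]
    [WellFoundedLT W] : W → BName B :=
  (wellFounded_lt (α := W)).fix fun w rec =>
    BName.mk {v : W // v < w} (fun v => rec v.1 v.2) (fun _ => ⊤)

/-- The canonical name of the order type of `W`. -/
noncomputable def kapW (B : Type u) [CompleteBooleanAlgebra B] (W : Type u) [LinearOrder W]
    [WellFoundedLT W] : BName B :=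
  BName.mk W (ordW B) (fun _ => ⊤)

theorem ordW_eq (w : W) :
    ordW B w = BName.mk {v : W // v < w} (fun v => ordW B v.1) (fun _ => ⊤) := by
  unfold ordW
  exact WellFounded.fix_eq _ _ _

theorem memB_ordW (t : BName B) (w : W) :
    memB t (ordW B w) = ⨆ v : {v : W // v < w}, eqB t (ordW B v.1) := by
  rw [ordW_eq, memB_mk]
  exact iSup_congr fun n => top_inf_eq _

theorem memB_kapW (t : BName B) : memB t (kapW B W) = ⨆ w : W, eqB t (ordW B w) := by
  rw [kapW, memB_mk]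
  exact iSup_congr fun n => top_inf_eq _

theorem ordW_mem_kapW (w : W) : memB (ordW B w) (kapW B W) = ⊤ := by
  rw [memB_kapW, eq_top_iff]
  exact iSup_intro w (le_eqB_refl _ _)

theorem ordW_mem_ordW {v w : W} (h : v < w) : memB (ordW B v) (ordW B w) = ⊤ := by
  rw [memB_ordW, eq_top_iff]
  exact iSup_intro (⟨v, h⟩ : {v : W // v < w}) (le_eqB_refl _ _)

theorem ordW_notMem_self (w : W) : memB (ordW B w) (ordW B w) = ⊥ := by
  induction w using WellFoundedLT.induction with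
  | ind w ih =>
    rw [eq_bot_iff]
    conv_lhs => rw [memB_ordW]
    refine iSup_le fun v => ?_
    have h1 : eqB (ordW B w) (ordW B v.1) ≤ memB (ordW B v.1) (ordW B w) := by
      rw [ordW_mem_ordW v.2]; exact le_top
    have h2 := memB_congr_right (le_refl (eqB (ordW B w) (ordW B v.1))) h1
    rwa [ih v.1 v.2] at h2

theorem eqB_ordW_lt {v w : W} (h : v < w) : eqB (ordW B v) (ordW B w) = ⊥ := by
  rw [eq_bot_iff]
  have h1 : eqB (ordW B v) (ordW B w) ≤ memB (ordW B v) (ordW B w) := by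
    rw [ordW_mem_ordW h]; exact le_top
  have h2 := memB_congr_right (eqB.symm (le_refl (eqB (ordW B v) (ordW B w)))) h1
  rwa [ordW_notMem_self] at h2

theorem eqB_ordW_ne {v w : W} (h : v ≠ w) : eqB (ordW B v) (ordW B w) = ⊥ := by
  rcases lt_or_gt_of_ne h with h | h
  · exact eqB_ordW_lt h
  · rw [eqB_symm]
    exact eqB_ordW_lt h

end

variable {P : Type u} [Preorder P] {p : P} {x y t : BName (RO P)}

namespace Fw

open Pool.Agent.KSt.Fr

section

variable {W : Type u} [LinearOrder W] [WellFoundedLT W] {v w : W}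

theorem ord_mem_ord : p ∈ memB (ordW (RO P) v) (ordW (RO P) w) ↔ v < w := by
  constructor
  · intro h
    rw [memB_ordW] at h
    obtain ⟨q, hq, i, hi⟩ := iSup_ex h
    by_contra hvw
    have hne : v ≠ i.1 := fun he => hvw (he ▸ i.2)
    exact bot (eqB_ordW_ne hne) hi
  · intro h
    exact top (ordW_mem_ordW h) p

theorem ord_inj (h : p ∈ eqB (ordW (RO P) v) (ordW (RO P) w)) : v = w := by
  by_contra hne
  exact bot (eqB_ordW_ne hne) h

theorem ord_ex (h : p ∈ memB t (ordW (RO P) w)) : ∃ q ≤ p, ∃ v < w, q ∈ eqB t (ordW _ v) := by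
  rw [memB_ordW] at h
  obtain ⟨q, hq, i, hi⟩ := iSup_ex h
  exact ⟨q, hq, i.1, i.2, hi⟩

theorem kap_ex (h : p ∈ memB t (kapW (RO P) W)) : ∃ q ≤ p, ∃ w : W, q ∈ eqB t (ordW _ w) := by
  rw [memB_kapW] at h
  exact iSup_ex h

theorem kap_mk (w : W) (h : p ∈ eqB t (ordW _ w)) : p ∈ memB t (kapW (RO P) W) :=
  mem_left (symm h) (top (ordW_mem_kapW w) p)

theorem mem_kap (w : W) : p ∈ memB (ordW _ w) (kapW (RO P) W) := kap_mk w (refl _ _)

theorem ord_mk (h : v < w) (h1 : p ∈ eqB t (ordW _ v)) : p ∈ memB t (ordW (RO P) w) :=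
  mem_left (symm h1) (ord_mem_ord.2 h)

theorem ord_trans (w : W) : p ∈ isTransB (ordW (RO P) w) := by
  refine trans_iff.2 fun y q hq hy => sub_iff.2 fun z r hr hz => dense fun s hs => ?_
  obtain ⟨s1, hs1, δ, hδ, h1⟩ := ord_ex (down hy (hs.trans hr))
  obtain ⟨s2, hs2, ε, hε, h2⟩ := ord_ex (mem_right h1 (down hz (hs1.trans hs)))
  exact ⟨s2, hs2.trans hs1, ord_mk (hε.trans hδ) h2⟩

theorem kap_ord : p ∈ isOrdB (kapW (RO P) W) := by
  unfold isOrdB
  rw [RO.mem_inf]
  constructor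
  · refine trans_iff.2 fun y q hq hy => sub_iff.2 fun z r hr hz => dense fun s hs => ?_
    obtain ⟨s1, hs1, δ, h1⟩ := kap_ex (down hy (hs.trans hr))
    obtain ⟨s2, hs2, ε, hε, h2⟩ := ord_ex (mem_right h1 (down hz (hs1.trans hs)))
    exact ⟨s2, hs2.trans hs1, kap_mk ε h2⟩
  · simp only [RO.mem_iInf, RO.mem_himp]
    intro y q hq hy
    refine dense fun s hs => ?_
    obtain ⟨s1, hs1, δ, h1⟩ := kap_ex (down hy hs)
    exact ⟨s1, hs1, trans_congr (symm h1) (ord_trans δ)⟩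

end

/-! ### The ordinal `ω` -/

theorem up_eq (n : ℕ) : p ∈ eqB (ordW (RO P) (ULift.up.{u} n)) (natN n) := by
  induction n using Nat.strong_induction_on generalizing p with
  | _ n ih =>
    refine ext ?_ ?_
    · intro z q hq hz
      refine dense fun s hs => ?_
      obtain ⟨s1, hs1, m, hm, h1⟩ := ord_ex (down hz hs)
      refine ⟨s1, hs1, mem_left (symm h1) (mem_left (symm (ih m.down hm)) ?_)⟩
      exact top (memB_natN_lt hm) _
    · intro z q hq hz
      rw [memB_natN] at hz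
      refine dense fun s hs => ?_
      obtain ⟨s1, hs1, i, hi⟩ := iSup_ex (down hz hs)
      refine ⟨s1, hs1, ord_mk (v := ULift.up (i : ℕ)) ?_ (trans hi (symm (ih i i.2)))⟩
      exact i.2

theorem omega_eq : p ∈ eqB (kapW (RO P) (ULift.{u} ℕ)) omegaN := by
  refine ext ?_ ?_
  · intro z q hq hz
    refine dense fun s hs => ?_
    obtain ⟨s1, hs1, m, h1⟩ := kap_ex (down hz hs)
    exact ⟨s1, hs1, omega_mk m.down (trans h1 (up_eq m.down))⟩
  · intro z q hq hz
    refine dense fun s hs => ?_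
    obtain ⟨s1, hs1, n, h1⟩ := omega_ex (down hz hs)
    exact ⟨s1, hs1, kap_mk (ULift.up n) (trans h1 (symm (up_eq n)))⟩

/-! ### Relations between indexed families -/

/-- The name of the set of the pairs `(X i, Y j)` with the values `F i j`. -/
def relN {ι κ : Type u} (X : ι → BName (RO P)) (Y : κ → BName (RO P)) (F : ι → κ → RO P) :
    BName (RO P) :=
  BName.mk (ι × κ) (fun i => opair (X i.1) (Y i.2)) (fun i => F i.1 i.2)

theorem relN_ex {ι κ : Type u} {X : ι → BName (RO P)} {Y : κ → BName (RO P)} {F : ι → κ → RO P}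
    (h : p ∈ relB (relN X Y F) x y) :
    ∃ q ≤ p, ∃ i j, q ∈ F i j ∧ q ∈ eqB x (X i) ∧ q ∈ eqB y (Y j) := by
  obtain ⟨q, hq, i, h1, h2, h3⟩ := rel_mk_ex h
  exact ⟨q, hq, i.1, i.2, h1, h2, h3⟩

theorem relN_mk {ι κ : Type u} {X : ι → BName (RO P)} {Y : κ → BName (RO P)} {F : ι → κ → RO P}
    (i : ι) (j : κ) (h : p ∈ F i j) (h1 : p ∈ eqB x (X i)) (h2 : p ∈ eqB y (Y j)) :
    p ∈ relB (relN X Y F) x y :=
  rel_mk_mk (i, j) h h1 h2

theorem relN_iff {ι κ : Type u} {X : ι → BName (RO P)} {Y : κ → BName (RO P)} {F : ι → κ → RO P}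
    (hX : ∀ i j, ∀ q ≤ p, q ∈ eqB (X i) (X j) → i = j)
    (hY : ∀ i j, ∀ q ≤ p, q ∈ eqB (Y i) (Y j) → i = j) (i : ι) (j : κ) :
    p ∈ relB (relN X Y F) (X i) (Y j) ↔ p ∈ F i j := by
  constructor
  · intro h
    refine dense fun q hq => ?_
    obtain ⟨r, hr, i', j', h1, h2, h3⟩ := relN_ex (down h hq)
    have hi := hX i i' r (hr.trans hq) h2
    have hj := hY j j' r (hr.trans hq) h3
    subst hi hj
    exact ⟨r, hr, h1⟩
  · intro h
    exact relN_mk i j h (refl _ _) (refl _ _)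

/-- A relation name is a function on `d`. -/
theorem relN_fun {ι κ : Type u} {X : ι → BName (RO P)} {Y : κ → BName (RO P)}
    {F : ι → κ → RO P} {d : BName (RO P)}
    (h1 : ∀ i j, ∀ q ≤ p, q ∈ F i j → q ∈ memB (X i) d)
    (h2 : ∀ x, ∀ q ≤ p, q ∈ memB x d → ∃ r ≤ q, ∃ i j, r ∈ F i j ∧ r ∈ eqB x (X i))
    (h3 : ∀ i j i' j', ∀ q ≤ p, q ∈ F i j → q ∈ F i' j' → q ∈ eqB (X i) (X i') →
      q ∈ eqB (Y j) (Y j')) :
    p ∈ isFunOnB (relN X Y F) d := by
  refine fun_mk (fun i => h1 i.1 i.2) ?_ (fun i j => h3 i.1 i.2 j.1 j.2)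
  intro x q hq hx
  obtain ⟨r, hr, i, j, h4, h5⟩ := h2 x q hq hx
  exact ⟨r, hr, (i, j), h4, h5⟩

/-- An injection given by a relation name. -/
theorem relN_inj {ι κ : Type u} {X : ι → BName (RO P)} {Y : κ → BName (RO P)}
    {F : ι → κ → RO P} {d k : BName (RO P)}
    (h1 : ∀ i j, ∀ q ≤ p, q ∈ F i j → q ∈ memB (X i) d)
    (h2 : ∀ x, ∀ q ≤ p, q ∈ memB x d → ∃ r ≤ q, ∃ i j, r ∈ F i j ∧ r ∈ eqB x (X i))
    (h3 : ∀ i j i' j', ∀ q ≤ p, q ∈ F i j → q ∈ F i' j' → q ∈ eqB (X i) (X i') →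
      q ∈ eqB (Y j) (Y j'))
    (h4 : ∀ i j, ∀ q ≤ p, q ∈ F i j → q ∈ memB (Y j) k)
    (h5 : ∀ i j i' j', ∀ q ≤ p, q ∈ F i j → q ∈ F i' j' → q ∈ eqB (Y j) (Y j') →
      q ∈ eqB (X i) (X i')) :
    FInj p (relN X Y F) d k where
  fn := relN_fun h1 h2 h3
  into x y q hq hy := by
    refine dense fun q' hq' => ?_
    obtain ⟨r, hr, i, j, h6, h7, h8⟩ := relN_ex (down hy hq')
    exact ⟨r, hr, mem_left (symm h8) (h4 i j r (hr.trans (hq'.trans hq)) h6)⟩
  inj x x' y q hq hy hy' := by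
    refine dense fun q' hq' => ?_
    obtain ⟨r, hr, i, j, h6, h7, h8⟩ := relN_ex (down hy hq')
    obtain ⟨s, hs, i', j', h9, h10, h11⟩ := relN_ex (down hy' (hr.trans hq'))
    refine ⟨s, hs.trans hr, ?_⟩
    exact trans (down h7 hs) (trans (h5 i j i' j' s (hs.trans (hr.trans (hq'.trans hq)))
      (down h6 hs) h9 (trans (symm (down h8 hs)) h11)) (symm h10))

end Fw

end Pool.Agent.CG3
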