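import Pool.Agent.Lib.MP_99c1f3_lc.CG.B.Fml
import Pool.Agent.Lib.MP_99c1f3_lc.CG.B.Nm

/-!
# CG3, module B.FFo: the forcing clauses of the statement

For every notion `fX` of the statement, a structure `FX p …` with quantifiers over stronger
conditions and names, and the lemma that it implies `p ∈ val (fX …) v`.
-/

set_option autoImplicit false

namespace Pool.Agent.CG3

open Pool.Agent.MPa4e7db Pool.Agent.Lib.SymModel Pool.Agent.StarRoth.BV Pool.Agent.MP_5db68c_lc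
open Pool.Agent.KSt (FInj fInj_iff)
open Pool.Agent.KSt

universe u

variable {P : Type u} [Preorder P]

/-- `p` forces that `o'` is the successor cardinal of `o`. -/
structure FSucc (p : P) (o' o : BName (RO P)) : Prop where
  ord : p ∈ isOrdB o'
  no : ∀ q ≤ p, ∀ f, ¬ FInj q f o' o
  le : ∀ α, ∀ q ≤ p, q ∈ memB α o' → ∃ r ≤ q, ∃ f, FInj r f α o

/-- `p` forces that `γ` is a limit point of `D`. -/
structure FLim (p : P) (γ D : BName (RO P)) : Prop where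
  ex : ∀ q ≤ p, ∃ r ≤ q, ∃ α, r ∈ memB α γ
  unb : ∀ α, ∀ q ≤ p, q ∈ memB α γ → ∃ r ≤ q, ∃ β, r ∈ memB β D ∧ r ∈ memB β γ ∧ r ∈ memB α β

/-- `p` forces that `L = ℵ_ω`. -/
structure FAlO (p : P) (L w : BName (RO P)) : Prop where
  ord : p ∈ isOrdB L
  mem : p ∈ memB w L
  up : ∀ α, ∀ q ≤ p, q ∈ memB α L → ∃ r ≤ q, ∃ β, r ∈ memB β L ∧ ∀ s ≤ r, ∀ f, ¬ FInj s f β α
  lo : ∀ K, ∀ q ≤ p, q ∈ memB K L → q ∈ memB w K → ∃ r ≤ q, ∃ α, r ∈ memB α K ∧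
    ∀ β, ∀ s ≤ r, s ∈ memB β K → ∃ t ≤ s, ∃ f, FInj t f β α

/-- `p` forces that `L` is a strong limit. -/
def FStL (p : P) (L : BName (RO P)) : Prop :=
  ∀ α, ∀ q ≤ p, q ∈ memB α L → ∃ r ≤ q, ∃ β, r ∈ memB β L ∧ ∀ c, ∀ s ≤ r,
    (∀ x, ∀ t ≤ s, t ∈ memB x c ↔ t ∈ subB x α) → ∃ t ≤ s, ∃ f, FInj t f c β

/-- `p` forces that `g` codes pairs of elements of `o` by elements of `o`. -/
structure FPairing (p : P) (g o : BName (RO P)) : Prop where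
  tot : ∀ a b, ∀ q ≤ p, q ∈ memB a o → q ∈ memB b o →
    ∃ r ≤ q, ∃ c, r ∈ memB c o ∧ r ∈ relB g (opair a b) c
  inj : ∀ a b a' b' c, ∀ q ≤ p, q ∈ relB g (opair a b) c → q ∈ relB g (opair a' b') c →
    q ∈ eqB a a' ∧ q ∈ eqB b b'

/-- `p` forces that `A` is a countable unbounded subset of `d`. -/
structure FCU (p : P) (A d w : BName (RO P)) : Prop where
  sub : p ∈ subB A d
  ctbl : ∀ q ≤ p, ∃ r ≤ q, ∃ f, FInj r f A w
  unb : ∀ α, ∀ q ≤ p, q ∈ memB α d → ∃ r ≤ q, ∃ β, r ∈ memB β A ∧ r ∈ memB α β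

/-- `p` forces that `l` is a normal cofinal map from `o` into `d`. -/
structure FLad (p : P) (l o d : BName (RO P)) : Prop where
  fn : p ∈ isFunIntoB l o d
  mono : ∀ ν ν' γ γ', ∀ q ≤ p, q ∈ relB l ν γ → q ∈ relB l ν' γ' → q ∈ memB ν ν' → q ∈ memB γ γ'
  cof : ∀ α, ∀ q ≤ p, q ∈ memB α d → ∃ r ≤ q, ∃ ν γ, r ∈ relB l ν γ ∧ r ∈ memB α γ
  cont : ∀ ν γ α, ∀ q ≤ p, q ∈ relB l ν γ → FLim q ν ν → q ∈ memB α γ →
    ∃ r ≤ q, ∃ ν' γ', r ∈ memB ν' ν ∧ r ∈ relB l ν' γ' ∧ r ∈ memB α γ'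

/-- `p` forces that the `D_x` are closed unbounded subsets of `o₂`. -/
structure FClub (p : P) (D o₂ o₃ : BName (RO P)) : Prop where
  sub : ∀ x γ, ∀ q ≤ p, q ∈ relB D x γ → q ∈ memB γ o₂
  unb : ∀ x α, ∀ q ≤ p, q ∈ memB x o₃ → q ∈ memB α o₂ → ∃ r ≤ q, ∃ γ, r ∈ relB D x γ ∧ r ∈ memB α γ
  clo : ∀ x γ, ∀ q ≤ p, q ∈ memB x o₃ → q ∈ memB γ o₂ → (∀ r ≤ q, ∃ s ≤ r, ∃ α, s ∈ memB α γ) →
    (∀ α, ∀ r ≤ q, r ∈ memB α γ → ∃ s ≤ r, ∃ β, s ∈ relB D x β ∧ s ∈ memB β γ ∧ s ∈ memB α β) →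
    q ∈ relB D x γ

/-- `p` forces the ladder part of the principle. -/
def FSLad (p : P) (E D w o₁ o₂ o₃ : BName (RO P)) : Prop :=
  ∀ d, ∀ q ≤ p, q ∈ memB d o₂ → FLim q d d → ∃ r ≤ q, (∃ A, FCU r A d w) ∨
    ∃ l, FLad r l o₁ d ∧ ∀ x, ∀ s ≤ r, s ∈ memB x o₃ → ∃ t ≤ s, ∃ β, t ∈ memB β o₁ ∧
      ∀ ν γ, ∀ t' ≤ t, t' ∈ relB l ν γ → t' ∈ memB β ν → t' ∈ relB D x γ → t' ∈ relB E x ν

/-- `p` forces the colouring part of the principle. -/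
def FSCol (p : P) (E o₁ o₃ : BName (RO P)) : Prop :=
  ∀ b, ∀ q ≤ p, q ∈ memB b o₁ → ∃ r ≤ q, ∃ c, r ∈ isFunIntoB c o₃ o₁ ∧
    ∀ x y n, ∀ s ≤ r, s ∈ relB c x n → s ∈ relB c y n → (∀ t ≤ s, t ∉ eqB x y) →
      ¬ ((∀ t ≤ s, ∃ t' ≤ t, ∃ α, t' ∈ memB α b) ∧ ∀ α, ∀ t ≤ s, t ∈ memB α b →
        ∃ t' ≤ t, ∃ ν, t' ∈ memB ν b ∧ t' ∈ memB α ν ∧ t' ∈ relB E x ν ∧ t' ∈ relB E y ν)

/-- `p` forces the principle. -/
structure FStar (p : P) (g₀ g E D w o₁ o₂ o₃ : BName (RO P)) : Prop where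
  pair₀ : FPairing p g₀ w
  pair : FPairing p g o₂
  club : FClub p D o₂ o₃
  lad : FSLad p E D w o₁ o₂ o₃
  col : FSCol p E o₁ o₃

section

variable (v : ℕ → BName (RO P)) {p : P}

theorem cardLe_iff {p : P} {d k : BName (RO P)} :
    p ∈ cardLeB d k ↔ ∀ q ≤ p, ∃ r ≤ q, ∃ f, FInj r f d k := by
  unfold cardLeB
  rw [RO.mem_iSup]
  simp only [fInj_iff]

theorem val_trel (g a b c : ℕ) : val (fTRel g a b c) v = relB (v g) (opair (v a) (v b)) (v c) := by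
  simp only [fTRel, Vl.ex, Vl.and, Vl.oPair, Vl.rel, push_zero, push_succ, isOPairB_eq]
  apply le_antisymm
  · refine iSup_le fun z => ?_
    exact relB_congr inf_le_left (le_eqB_refl _ _) inf_le_right
  · exact le_iSup_of_le (opair (v a) (v b)) (le_inf (le_eqB_refl _ _) le_rfl)

theorem fSucc_of {o' o : ℕ} (H : FSucc p (v o') (v o)) : p ∈ val (fSuccCard o' o) v := by
  simp only [fSuccCard, Fc.and, Fc.neg, Fc.all, Fc.imp, Vl.ord, Vl.cardLe, Vl.mem,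
    push_zero, push_succ]
  refine ⟨H.ord, fun q hq hc => ?_, fun x q hq hx => cardLe_iff.2 fun r hr => ?_⟩
  · obtain ⟨r, hr, f, hf⟩ := cardLe_iff.1 hc q le_rfl
    exact H.no r (hr.trans hq) f hf
  · exact H.le x r (hr.trans hq) (Fr.down hx hr)

theorem fLim_iff {γ D : ℕ} : p ∈ val (fLimPt γ D) v ↔ FLim p (v γ) (v D) := by
  simp only [fLimPt, Fc.and, Fc.ex, Fc.all, Fc.imp, Vl.mem, push_zero, push_succ]
  constructor
  · rintro ⟨h1, h2⟩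
    exact ⟨h1, fun α q hq hα => h2 α q hq hα q le_rfl⟩
  · rintro ⟨h1, h2⟩
    exact ⟨h1, fun α q hq hα r hr => h2 α r (hr.trans hq) (Fr.down hα hr)⟩

theorem fAlO_of {L w : ℕ} (H : FAlO p (v L) (v w)) : p ∈ val (fAlephOmega L w) v := by
  simp only [fAlephOmega, Fc.and, Fc.neg, Fc.all, Fc.ex, Fc.imp, Vl.ord, Vl.cardLe, Vl.mem,
    push_zero, push_succ]
  refine ⟨H.ord, H.mem, fun α q hq hα r hr => ?_, fun K q hq hK r hr => ?_⟩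
  · obtain ⟨s, hs, β, h1, h2⟩ := H.up α r (hr.trans hq) (Fr.down hα hr)
    refine ⟨s, hs, β, h1, fun t ht hc => ?_⟩
    obtain ⟨t', ht', f, hf⟩ := cardLe_iff.1 hc t le_rfl
    exact h2 t' (ht'.trans ht) f hf
  · obtain ⟨s, hs, α, h1, h2⟩ := H.lo K r (hr.trans hq) (Fr.down hK.1 hr) (Fr.down hK.2 hr)
    refine ⟨s, hs, α, h1, fun β t ht hβ => cardLe_iff.2 fun t' ht' => ?_⟩
    exact h2 β t' (ht'.trans ht) (Fr.down hβ ht')

theorem fStL_of {L : ℕ} (H : FStL p (v L)) : p ∈ val (fStrongLim L) v := by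
  simp only [fStrongLim, Fc.and, Fc.all, Fc.ex, Fc.imp, Fc.iff, Vl.sub, Vl.cardLe, Vl.mem,
    push_zero, push_succ]
  intro α q hq hα r hr
  obtain ⟨s, hs, β, h1, h2⟩ := H α r (hr.trans hq) (Fr.down hα hr)
  refine ⟨s, hs, β, h1, fun c t ht hc => cardLe_iff.2 fun t' ht' => ?_⟩
  exact h2 c t' (ht'.trans ht) fun x a ha => hc x a (ha.trans ht')

theorem fPairing_of {g o : ℕ} (H : FPairing p (v g) (v o)) : p ∈ val (fPairing g o) v := by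
  simp only [fPairing, Fc.and, Fc.all, Fc.ex, Fc.imp, Vl.mem, Vl.eq, val_trel,
    push_zero, push_succ]
  refine ⟨fun a b q hq hab r hr => ?_, fun a b a' b' c q hq h => ?_⟩
  · exact H.tot a b r (hr.trans hq) (Fr.down hab.1 hr) (Fr.down hab.2 hr)
  · exact H.inj a b a' b' c q hq h.1 h.2

theorem fCU_of {A d w : ℕ} (H : FCU p (v A) (v d) (v w)) : p ∈ val (fCtblUnb A d w) v := by
  simp only [fCtblUnb, Fc.and, Fc.all, Fc.ex, Fc.imp, Vl.mem, Vl.sub, Vl.ctbl,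
    push_zero, push_succ]
  exact ⟨H.sub, ctbl_iff.2 H.ctbl, fun α q hq hα r hr =>
    H.unb α r (hr.trans hq) (Fr.down hα hr)⟩

theorem fLad_of {l o d : ℕ} (H : FLad p (v l) (v o) (v d)) : p ∈ val (fLadder l o d) v := by
  simp only [fLadder, Fc.and, Fc.all, Fc.ex, Fc.imp, Vl.mem, Vl.rel, Vl.funInto, fLim_iff,
    push_zero, push_succ]
  refine ⟨H.fn, fun ν ν' γ γ' q hq h => H.mono ν ν' γ γ' q hq h.1.1 h.1.2 h.2,
    fun α q hq hα r hr => ?_, fun ν γ q hq h α r hr hα s hs => ?_⟩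
  · obtain ⟨s, hs, ν, γ, h⟩ := H.cof α r (hr.trans hq) (Fr.down hα hr)
    exact ⟨s, hs, ν, fun t ht => ⟨t, le_rfl, γ, Fr.down h.1 ht, Fr.down h.2 ht⟩⟩
  · have h1 : FLim s ν ν := ⟨fun t ht => h.2.ex t (ht.trans (hs.trans hr)),
      fun α t ht => h.2.unb α t (ht.trans (hs.trans hr))⟩
    obtain ⟨t, ht, ν', γ', h2, h3, h4⟩ := H.cont ν γ α s (hs.trans (hr.trans hq))
      (Fr.down h.1 (hs.trans hr)) h1 (Fr.down hα hs)
    exact ⟨t, ht, ν', fun a ha => ⟨a, le_rfl, γ', Fr.down h2 ha, Fr.down h3 ha, Fr.down h4 ha⟩⟩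

theorem fClub_of {D o₂ o₃ : ℕ} (H : FClub p (v D) (v o₂) (v o₃)) :
    p ∈ val (fStarClub D o₂ o₃) v := by
  simp only [fStarClub, Fc.and, Fc.all, Fc.ex, Fc.imp, Vl.mem, Vl.rel, push_zero, push_succ]
  refine ⟨fun x γ q hq h => H.sub x γ q hq h, fun x α q hq h r hr => ?_,
    fun x γ q hq h => ?_⟩
  · exact H.unb x α r (hr.trans hq) (Fr.down h.1 hr) (Fr.down h.2 hr)
  · exact H.clo x γ q hq h.1.1 h.1.2 h.2.1 fun α r hr hα => h.2.2 α r hr hα r le_rfl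

theorem fSLad_of {E D w o₁ o₂ o₃ : ℕ} (H : FSLad p (v E) (v D) (v w) (v o₁) (v o₂) (v o₃)) :
    p ∈ val (fStarLad E D w o₁ o₂ o₃) v := by
  simp only [fStarLad, Fc.all, Fc.imp, Fc.or]
  intro d q hq h r hr
  rw [Fc.and] at h
  obtain ⟨h1, h2⟩ := h
  have h2' : FLim q d d := (fLim_iff (push d v) (γ := 0) (D := 0)).1 h2
  have h3 : FLim r d d := ⟨fun t ht => h2'.ex t (ht.trans hr),
    fun α t ht => h2'.unb α t (ht.trans hr)⟩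
  have h1' : q ∈ memB d (v o₂) := h1
  obtain ⟨s, hs, ⟨A, hA⟩ | ⟨l, hl, hx⟩⟩ := H d r (hr.trans hq) (Fr.down h1' hr) h3
  · refine ⟨s, hs, Or.inl ?_⟩
    rw [Fc.ex]
    intro t ht
    refine ⟨t, le_rfl, A, fCU_of _ ?_⟩
    exact ⟨Fr.down hA.sub ht, fun a ha => hA.ctbl a (ha.trans ht),
      fun α a ha => hA.unb α a (ha.trans ht)⟩
  · refine ⟨s, hs, Or.inr ?_⟩
    rw [Fc.ex]
    intro t ht
    refine ⟨t, le_rfl, l, ?_⟩
    rw [Fc.and]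
    constructor
    · refine fLad_of _ ?_
      exact ⟨Fr.down hl.fn ht, fun ν ν' γ γ' a ha => hl.mono ν ν' γ γ' a (ha.trans ht),
        fun α a ha => hl.cof α a (ha.trans ht), fun ν γ α a ha => hl.cont ν γ α a (ha.trans ht)⟩
    · simp only [Fc.and, Fc.all, Fc.ex, Fc.imp, Vl.mem, Vl.rel, push_zero, push_succ]
      intro x a ha hxa b hb
      obtain ⟨c, hc, β, h4, h5⟩ := hx x b (hb.trans (ha.trans ht)) (Fr.down hxa hb)
      refine ⟨c, hc, β, h4, fun ν γ a' ha' h6 => h5 ν γ a' ha' h6.1.1 h6.1.2 h6.2⟩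

theorem fSCol_of {E o₁ o₃ : ℕ} (H : FSCol p (v E) (v o₁) (v o₃)) :
    p ∈ val (fStarCol E o₁ o₃) v := by
  simp only [fStarCol, Fc.and, Fc.neg, Fc.all, Fc.ex, Fc.imp, Vl.mem, Vl.eq, Vl.rel, Vl.funInto,
    push_zero, push_succ]
  intro b q hq hb r hr
  obtain ⟨s, hs, c, h1, h2⟩ := H b r (hr.trans hq) (Fr.down hb hr)
  refine ⟨s, hs, c, h1, fun x y n t ht h3 t' ht' h4 => ?_⟩
  refine h2 x y n t' (ht'.trans ht) (Fr.down h3.1.1 ht') (Fr.down h3.1.2 ht')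
    (fun a ha => h3.2 a (ha.trans ht')) ⟨h4.1, fun α a ha h5 => ?_⟩
  obtain ⟨a', ha', ν, h6, h7⟩ := h4.2 α a ha h5 a le_rfl
  exact ⟨a', ha', ν, h6.1, h6.2, h7.1, h7.2⟩

theorem fStar_of {w o₁ o₂ o₃ : ℕ} (H : ∀ q ≤ p, ∃ r ≤ q, ∃ g₀ g E D,
    FStar r g₀ g E D (v w) (v o₁) (v o₂) (v o₃)) : p ∈ val (fStar w o₁ o₂ o₃) v := by
  simp only [fStar, Fc.and, Fc.ex]
  refine ⟨fun q hq => ?_, fun q hq => ?_, fun q hq => ?_⟩
  · obtain ⟨r, hr, g₀, g, E, D, h⟩ := H q hq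
    exact ⟨r, hr, g₀, fPairing_of _ h.pair₀⟩
  · obtain ⟨r, hr, g₀, g, E, D, h⟩ := H q hq
    exact ⟨r, hr, g, fPairing_of _ h.pair⟩
  · obtain ⟨r, hr, g₀, g, E, D, h⟩ := H q hq
    refine ⟨r, hr, E, fun s hs => ⟨s, le_rfl, D, ?_, ?_, ?_⟩⟩
    · exact fClub_of _ ⟨fun x γ q hq => h.club.sub x γ q (hq.trans hs),
        fun x α q hq => h.club.unb x α q (hq.trans hs),
        fun x γ q hq => h.club.clo x γ q (hq.trans hs)⟩
    · exact fSLad_of _ fun d q hq => h.lad d q (hq.trans hs)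
    · exact fSCol_of _ fun b q hq => h.col b q (hq.trans hs)

end

end Pool.Agent.CG3
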