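import Pool.Agent.Lib.MP_99c1f3_lc.CG.St
import Pool.Agent.Lib.MP_a1c723_lc.BV.Formula

/-!
# CG3, module B.Fml: the statement `StM` as a first-order sentence
-/

set_option autoImplicit false

namespace Pool.Agent.CG3

open Pool.Agent.StarRoth.BV Pool.Agent.MPa4e7db Pool.Agent.MP_5db68c_lc

def fSuccCard (o' o : ℕ) : Fml :=
  .and (fOrd o') (.and (.neg (fCardLe o' o)) (.all (fImp (.mem 0 (o' + 1)) (fCardLe 0 (o + 1)))))

def fLimPt (γ D : ℕ) : Fml :=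
  .and (fEx (.mem 0 (γ + 1))) (.all (fImp (.mem 0 (γ + 1))
    (fEx (.and (.mem 0 (D + 1 + 1)) (.and (.mem 0 (γ + 1 + 1)) (.mem (0 + 1) 0))))))

def fAlephOmega (L w : ℕ) : Fml :=
  .and (fOrd L) (.and (.mem w L) (.and
    (.all (fImp (.mem 0 (L + 1)) (fEx (.and (.mem 0 (L + 1 + 1)) (.neg (fCardLe 0 (0 + 1)))))))
    (.all (fImp (.and (.mem 0 (L + 1)) (.mem (w + 1) 0)) (fEx (.and (.mem 0 (0 + 1))
      (.all (fImp (.mem 0 (0 + 1 + 1)) (fCardLe 0 (0 + 1))))))))))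

def fStrongLim (L : ℕ) : Fml :=
  .all (fImp (.mem 0 (L + 1)) (fEx (.and (.mem 0 (L + 1 + 1))
    (.all (fImp (.all (fIff (.mem 0 (0 + 1)) (fSub 0 (0 + 1 + 1 + 1)))) (fCardLe 0 (0 + 1)))))))

def fTRel (p a b c : ℕ) : Fml :=
  fEx (.and (fOPair 0 (a + 1) (b + 1)) (fRel (p + 1) 0 (c + 1)))

def fPairing (p o : ℕ) : Fml :=
  .and (.all (.all (fImp (.and (.mem (0 + 1) (o + 1 + 1)) (.mem 0 (o + 1 + 1)))
    (fEx (.and (.mem 0 (o + 1 + 1 + 1)) (fTRel (p + 1 + 1 + 1) (0 + 1 + 1) (0 + 1) 0))))))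
  (.all (.all (.all (.all (.all (fImp (.and
    (fTRel (p + 1 + 1 + 1 + 1 + 1) (0 + 1 + 1 + 1 + 1) (0 + 1 + 1 + 1) 0)
    (fTRel (p + 1 + 1 + 1 + 1 + 1) (0 + 1 + 1) (0 + 1) 0))
    (.and (.eq (0 + 1 + 1 + 1 + 1) (0 + 1 + 1)) (.eq (0 + 1 + 1 + 1) (0 + 1)))))))))

def fCtblUnb (A d w : ℕ) : Fml :=
  .and (fSub A d) (.and (fCtbl A w) (.all (fImp (.mem 0 (d + 1))
    (fEx (.and (.mem 0 (A + 1 + 1)) (.mem (0 + 1) 0))))))

def fLadder (l o₁ d : ℕ) : Fml :=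
  .and (fFunInto l o₁ d) (.and
    (.all (.all (.all (.all (fImp (.and (.and
      (fRel (l + 1 + 1 + 1 + 1) (0 + 1 + 1 + 1) (0 + 1))
      (fRel (l + 1 + 1 + 1 + 1) (0 + 1 + 1) 0)) (.mem (0 + 1 + 1 + 1) (0 + 1 + 1)))
      (.mem (0 + 1) 0)))))) (.and
    (.all (fImp (.mem 0 (d + 1)) (fEx (fEx (.and (fRel (l + 1 + 1 + 1) (0 + 1) 0)
      (.mem (0 + 1 + 1) 0))))))
    (.all (.all (fImp (.and (fRel (l + 1 + 1) (0 + 1) 0) (fLimPt (0 + 1) (0 + 1)))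
      (.all (fImp (.mem 0 (0 + 1)) (fEx (fEx (.and (.mem (0 + 1) (0 + 1 + 1 + 1 + 1))
        (.and (fRel (l + 1 + 1 + 1 + 1 + 1) (0 + 1) 0) (.mem (0 + 1 + 1) 0))))))))))))

def fStarClub (D o₂ o₃ : ℕ) : Fml :=
  .and (.all (.all (fImp (fRel (D + 1 + 1) (0 + 1) 0) (.mem 0 (o₂ + 1 + 1))))) (.and
    (.all (.all (fImp (.and (.mem (0 + 1) (o₃ + 1 + 1)) (.mem 0 (o₂ + 1 + 1)))
      (fEx (.and (fRel (D + 1 + 1 + 1) (0 + 1 + 1) 0) (.mem (0 + 1) 0))))))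
    (.all (.all (fImp (.and (.and (.mem (0 + 1) (o₃ + 1 + 1)) (.mem 0 (o₂ + 1 + 1)))
      (.and (fEx (.mem 0 (0 + 1))) (.all (fImp (.mem 0 (0 + 1))
        (fEx (.and (fRel (D + 1 + 1 + 1 + 1) (0 + 1 + 1 + 1) 0)
          (.and (.mem 0 (0 + 1 + 1)) (.mem (0 + 1) 0))))))))
      (fRel (D + 1 + 1) (0 + 1) 0)))))

def fStarLad (E D w o₁ o₂ o₃ : ℕ) : Fml :=
  .all (fImp (.and (.mem 0 (o₂ + 1)) (fLimPt 0 0)) (fOr (fEx (fCtblUnb 0 (0 + 1) (w + 1 + 1)))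
    (fEx (.and (fLadder 0 (o₁ + 1 + 1) (0 + 1))
      (.all (fImp (.mem 0 (o₃ + 1 + 1 + 1)) (fEx (.and (.mem 0 (o₁ + 1 + 1 + 1 + 1))
        (.all (.all (fImp (.and (.and
          (fRel (0 + 1 + 1 + 1 + 1) (0 + 1) 0) (.mem (0 + 1 + 1) (0 + 1)))
          (fRel (D + 1 + 1 + 1 + 1 + 1 + 1) (0 + 1 + 1 + 1) 0))
          (fRel (E + 1 + 1 + 1 + 1 + 1 + 1) (0 + 1 + 1 + 1) (0 + 1)))))))))))))

def fStarCol (E o₁ o₃ : ℕ) : Fml :=
  .all (fImp (.mem 0 (o₁ + 1)) (fEx (.and (fFunInto 0 (o₃ + 1 + 1) (o₁ + 1 + 1))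
    (.all (.all (.all (fImp (.and (.and (fRel (0 + 1 + 1 + 1) (0 + 1 + 1) 0)
      (fRel (0 + 1 + 1 + 1) (0 + 1) 0)) (.neg (.eq (0 + 1 + 1) (0 + 1))))
      (.neg (.and (fEx (.mem 0 (0 + 1 + 1 + 1 + 1 + 1))) (.all (fImp
        (.mem 0 (0 + 1 + 1 + 1 + 1 + 1)) (fEx (.and
          (.and (.mem 0 (0 + 1 + 1 + 1 + 1 + 1 + 1)) (.mem (0 + 1) 0))
          (.and (fRel (E + 1 + 1 + 1 + 1 + 1 + 1 + 1) (0 + 1 + 1 + 1 + 1) 0)
            (fRel (E + 1 + 1 + 1 + 1 + 1 + 1 + 1) (0 + 1 + 1 + 1) 0)))))))))))))))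

def fStar (w o₁ o₂ o₃ : ℕ) : Fml :=
  .and (fEx (fPairing 0 (w + 1))) (.and (fEx (fPairing 0 (o₂ + 1)))
    (fEx (fEx (.and (fStarClub 0 (o₂ + 1 + 1) (o₃ + 1 + 1)) (.and
    (fStarLad (0 + 1) 0 (w + 1 + 1) (o₁ + 1 + 1) (o₂ + 1 + 1) (o₃ + 1 + 1))
    (fStarCol (0 + 1) (o₁ + 1 + 1) (o₃ + 1 + 1)))))))

def fStM : Fml :=
  fEx (fEx (fEx (fEx (fEx (.and (fOmega (0 + 1 + 1 + 1 + 1)) (.and
    (fSuccCard (0 + 1 + 1 + 1) (0 + 1 + 1 + 1 + 1)) (.and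
    (fSuccCard (0 + 1 + 1) (0 + 1 + 1 + 1)) (.and
    (fSuccCard (0 + 1) (0 + 1 + 1)) (.and
    (.and (fAlephOmega 0 (0 + 1 + 1 + 1 + 1)) (fStrongLim 0))
    (fStar (0 + 1 + 1 + 1 + 1) (0 + 1 + 1 + 1) (0 + 1 + 1) (0 + 1)))))))))))

section

variable {M : Type} [Membership M M] (v : ℕ → M)

theorem sat_fSuccCard (o' o : ℕ) : Sat (fSuccCard o' o) v ↔ IsSuccCardIn (v o') (v o) := by
  simp only [fSuccCard, sat_all, sat_imp, sat_and, sat_neg, sat_mem, sat_fOrd, sat_fCardLe,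
    push_zero, push_succ, IsSuccCardIn]

theorem sat_fLimPt (γ D : ℕ) : Sat (fLimPt γ D) v ↔ IsLimPtIn (v γ) (v D) := by
  simp only [fLimPt, sat_all, sat_ex, sat_imp, sat_and, sat_mem, push_zero, push_succ, IsLimPtIn]

theorem sat_fAlephOmega (L w : ℕ) : Sat (fAlephOmega L w) v ↔ IsAlephOmegaIn (v L) (v w) := by
  simp only [fAlephOmega, sat_all, sat_ex, sat_imp, sat_and, sat_neg, sat_mem, sat_fOrd,
    sat_fCardLe, push_zero, push_succ, IsAlephOmegaIn]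

theorem sat_fStrongLim (L : ℕ) : Sat (fStrongLim L) v ↔ IsStrongLimIn (v L) := by
  simp only [fStrongLim, sat_all, sat_ex, sat_imp, sat_iff, sat_and, sat_mem, sat_fSub,
    sat_fCardLe, push_zero, push_succ, IsStrongLimIn]

theorem sat_fTRel (p a b c : ℕ) : Sat (fTRel p a b c) v ↔ TRelIn (v p) (v a) (v b) (v c) := by
  simp only [fTRel, sat_ex, sat_and, sat_fOPair, sat_fRel, push_zero, push_succ, TRelIn]

theorem sat_fPairing (p o : ℕ) : Sat (fPairing p o) v ↔ IsPairingIn (v p) (v o) := by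
  simp only [fPairing, sat_all, sat_ex, sat_imp, sat_and, sat_mem, sat_eq, sat_fTRel,
    push_zero, push_succ, IsPairingIn]

theorem sat_fCtblUnb (A d w : ℕ) : Sat (fCtblUnb A d w) v ↔ IsCtblUnbIn (v A) (v d) (v w) := by
  simp only [fCtblUnb, sat_all, sat_ex, sat_imp, sat_and, sat_mem, sat_fSub, sat_fCtbl,
    push_zero, push_succ, IsCtblUnbIn]

theorem sat_fLadder (l o₁ d : ℕ) : Sat (fLadder l o₁ d) v ↔ IsLadderIn (v l) (v o₁) (v d) := by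
  simp only [fLadder, sat_all, sat_ex, sat_imp, sat_and, sat_mem, sat_fRel, sat_fFunInto,
    sat_fLimPt, push_zero, push_succ, IsLadderIn]

theorem sat_fStarClub (D o₂ o₃ : ℕ) :
    Sat (fStarClub D o₂ o₃) v ↔ StarClub (v D) (v o₂) (v o₃) := by
  simp only [fStarClub, sat_all, sat_ex, sat_imp, sat_and, sat_mem, sat_fRel, push_zero,
    push_succ, StarClub]

theorem sat_fStarLad (E D w o₁ o₂ o₃ : ℕ) : Sat (fStarLad E D w o₁ o₂ o₃) v ↔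
    StarLad (v E) (v D) (v w) (v o₁) (v o₂) (v o₃) := by
  simp only [fStarLad, sat_all, sat_ex, sat_imp, sat_or, sat_and, sat_mem, sat_fRel,
    sat_fLimPt, sat_fCtblUnb, sat_fLadder, push_zero, push_succ, StarLad]

theorem sat_fStarCol (E o₁ o₃ : ℕ) :
    Sat (fStarCol E o₁ o₃) v ↔ StarCol (v E) (v o₁) (v o₃) := by
  simp only [fStarCol, sat_all, sat_ex, sat_imp, sat_and, sat_neg, sat_eq, sat_mem, sat_fRel,
    sat_fFunInto, push_zero, push_succ, StarCol, ne_eq]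

theorem sat_fStar (w o₁ o₂ o₃ : ℕ) :
    Sat (fStar w o₁ o₂ o₃) v ↔ StarIn (v w) (v o₁) (v o₂) (v o₃) := by
  simp only [fStar, sat_ex, sat_and, sat_fPairing, sat_fStarClub, sat_fStarLad, sat_fStarCol,
    push_zero, push_succ, StarIn]

theorem sat_fStM : Sat fStM v ↔ StM M := by
  simp only [fStM, sat_ex, sat_and, sat_fOmega, sat_fSuccCard, sat_fAlephOmega, sat_fStrongLim,
    sat_fStar, push_zero, push_succ, StM]

end

end Pool.Agent.CG3
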