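import Pool.Agent.Lib.MP_99c1f3_lc.CG.B.Seg
import Pool.Agent.Lib.MP_99c1f3_lc.CG.Iface

/-!
# CG3, module B.Inj: injections between ordinals, and their absence
-/

set_option autoImplicit false

namespace Pool.Agent.CG3

open Pool.Agent.MPa4e7db Pool.Agent.Lib.SymModel Pool.Agent.StarRoth.BV Pool.Agent.MP_5db68c_lc
open Pool.Agent.KSt

variable {P : Type 1} [Preorder P] {p : P} {A W : Type 1} [LinearOrder A] [WellFoundedLT A]
  [LinearOrder W] [WellFoundedLT W]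

/-- If some index satisfies `F` below `q`, there is a least such index. -/
theorem least_w {F : A → RO P} {q : P} (h : ∃ r ≤ q, ∃ a, r ∈ F a) :
    ∃ r ≤ q, ∃ a, r ∈ F a ∧ ∀ b < a, r ∈ (F b)ᶜ := by
  obtain ⟨r, hr, a, ha⟩ := h
  obtain ⟨m, ⟨s, hs, hsm⟩, hmin⟩ := WellFounded.has_min (wellFounded_lt (α := A))
    {a : A | ∃ r ≤ q, r ∈ F a} ⟨a, r, hr, ha⟩
  refine ⟨s, hs, m, hsm, fun b hb => RO.mem_compl.2 fun t ht htb => ?_⟩
  exact hmin b ⟨t, ht.trans hs, htb⟩ hb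

/-- An injection of the ground model. -/
theorem gnd_inj (w : W) (g : {x : W // x < w} → A) (hg : Function.Injective g) :
    ∃ f, ∀ p : P, FInj p f (ordW (RO P) w) (kapW (RO P) A) := by
  classical
  refine ⟨Fw.relN (fun i : {x : W // x < w} => ordW (RO P) i.1) (ordW (RO P))
    (fun i a => if g i = a then ⊤ else ⊥), fun p => Fw.relN_inj ?_ ?_ ?_ ?_ ?_⟩
  · intro i a q hq _
    exact Fw.ord_mem_ord.2 i.2
  · intro x q hq hx
    obtain ⟨r, hr, v, hv, h1⟩ := Fw.ord_ex hx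
    refine ⟨r, hr, ⟨v, hv⟩, g ⟨v, hv⟩, ?_, h1⟩
    rw [if_pos rfl]
    exact RO.mem_top r
  · intro i a i' a' q hq h1 h2 h3
    have hi : i = i' := Subtype.ext (Fw.ord_inj h3)
    subst hi
    by_cases ha : g i = a
    · by_cases ha' : g i = a'
      · rw [← ha, ← ha']
        exact Fr.refl _ _
      · rw [if_neg ha'] at h2
        exact absurd h2 (RO.notMem_bot q)
    · rw [if_neg ha] at h1
      exact absurd h1 (RO.notMem_bot q)
  · intro i a q hq _
    exact Fw.mem_kap a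
  · intro i a i' a' q hq h1 h2 h3
    have haa : a = a' := Fw.ord_inj h3
    subst haa
    by_cases ha : g i = a
    · by_cases ha' : g i' = a
      · rw [hg (ha.trans ha'.symm)]
        exact Fr.refl _ _
      · rw [if_neg ha'] at h2
        exact absurd h2 (RO.notMem_bot q)
    · rw [if_neg ha] at h1
      exact absurd h1 (RO.notMem_bot q)

/-- A name of a function from `A` onto the predecessors of `w` gives an injection. -/
theorem onto_inj {w : W} (H : OntoB P A (Set.Iio w)) :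
    ∃ f, ∀ p : P, FInj p f (ordW (RO P) w) (kapW (RO P) A) := by
  obtain ⟨F, h1, h2⟩ := H
  let G : Set.Iio w → A → RO P := fun i a => F a i ⊓ ⨅ b : {b : A // b < a}, (F b.1 i)ᶜ
  have hG : ∀ i a r, r ∈ G i a ↔ r ∈ F a i ∧ ∀ b < a, r ∈ (F b i)ᶜ := by
    intro i a r
    show r ∈ F a i ⊓ ⨅ b : {b : A // b < a}, (F b.1 i)ᶜ ↔ _
    rw [RO.mem_inf, RO.mem_iInf]
    exact ⟨fun h => ⟨h.1, fun b hb => h.2 ⟨b, hb⟩⟩, fun h => ⟨h.1, fun b => h.2 b.1 b.2⟩⟩
  refine ⟨Fw.relN (fun i : Set.Iio w => ordW (RO P) i.1) (ordW (RO P)) G,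
    fun p => Fw.relN_inj ?_ ?_ ?_ ?_ ?_⟩
  · intro i a q hq _
    exact Fw.ord_mem_ord.2 i.2
  · intro x q hq hx
    obtain ⟨r, hr, v, hv, h3⟩ := Fw.ord_ex hx
    obtain ⟨s, hs, a, h4⟩ := least_w (F := fun a => F a ⟨v, hv⟩) (h2 r ⟨v, hv⟩)
    exact ⟨s, hs.trans hr, ⟨v, hv⟩, a, (hG _ _ _).2 h4, Fr.down h3 hs⟩
  · intro i a i' a' q hq h3 h4 h5
    have hi : i = i' := Subtype.ext (Fw.ord_inj h5)
    subst hi
    have ha := (hG _ _ _).1 h3
    have hb := (hG _ _ _).1 h4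
    rcases lt_trichotomy a a' with h | h | h
    · exact (Fr.compl_mp (hb.2 a h) ha.1).elim
    · rw [h]
      exact Fr.refl _ _
    · exact (Fr.compl_mp (ha.2 a' h) hb.1).elim
  · intro i a q hq _
    exact Fw.mem_kap a
  · intro i a i' a' q hq h3 h4 h5
    have haa : a = a' := Fw.ord_inj h5
    subst haa
    have hi : i = i' := h1 q a i i' q le_rfl ((hG _ _ _).1 h3).1 ((hG _ _ _).1 h4).1
    rw [hi]
    exact Fr.refl _ _

/-- No injection from `W` into `A`, if no function from `A` to `W` is unbounded. -/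
theorem no_inj (H : BddB P A W) (q : P) (f : BName (RO P)) :
    ¬ FInj q f (kapW (RO P) W) (kapW (RO P) A) := by
  intro hf
  obtain ⟨r, hr, b, hb⟩ := H q (fun a w => relB f (ordW (RO P) w) (ordW (RO P) a))
    (fun a w w' s hs h1 h2 => Fw.ord_inj (hf.inj _ _ _ s hs h1 h2))
  obtain ⟨s, hs, y, hy⟩ := Fr.iSup_ex (Fr.fun_total (Fr.down hf.fn hr)
    (x := ordW (RO P) b) (Fw.mem_kap b))
  obtain ⟨t, ht, a, ha⟩ := Fw.kap_ex (hf.into _ _ s (hs.trans hr) hy)
  exact lt_irrefl b (hb a b t (ht.trans hs) (Fr.rel_right ha (Fr.down hy ht)))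

theorem bddB_up {W : Type 1} [LT W] (H : BddB P ℕ W) : BddB P (ULift.{1} ℕ) W := by
  intro q F hF
  obtain ⟨r, hr, b, hb⟩ := H q (fun n w => F (ULift.up n) w) (fun n w w' s hs =>
    hF (ULift.up n) w w' s hs)
  exact ⟨r, hr, b, fun a c s hs h => hb a.down c s hs h⟩

theorem ontoB_up {B : Type 1} (H : OntoB P ℕ B) : OntoB P (ULift.{1} ℕ) B := by
  obtain ⟨F, h1, h2⟩ := H
  refine ⟨fun n b => F n.down b, fun q n => h1 q n.down, fun q b => ?_⟩
  obtain ⟨r, hr, a, ha⟩ := h2 q b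
  exact ⟨r, hr, ULift.up a, ha⟩

/-- The name of `W` is forced to be the successor cardinal of that of `A`. -/
theorem succ_of (H : BddB P A W) (h : ∀ w : W, ∃ f, ∀ p : P, FInj p f (ordW (RO P) w)
    (kapW (RO P) A)) (p : P) : FSucc p (kapW (RO P) W) (kapW (RO P) A) where
  ord := Fw.kap_ord
  no q _ f := no_inj H q f
  le α q hq hα := by
    obtain ⟨r, hr, w, hw⟩ := Fw.kap_ex hα
    obtain ⟨f, hf⟩ := h w
    exact ⟨r, hr, f, (hf r).congr (Fr.symm hw)⟩

end Pool.Agent.CG3
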