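import Pool.Agent.Lib.MP_99c1f3_lc.CG.B.FFo

/-!
# CG3, module B.Seg: the names of the ordinals do not depend on the well-ordered type
-/

set_option autoImplicit false

namespace Pool.Agent.CG3

open Pool.Agent.MPa4e7db Pool.Agent.Lib.SymModel Pool.Agent.StarRoth.BV Pool.Agent.MP_5db68c_lc
open Pool.Agent.KSt

universe u

variable {P : Type u} [Preorder P] {p : P} {V W : Type u} [LinearOrder V] [WellFoundedLT V]
  [LinearOrder W] [WellFoundedLT W]

theorem FInj.congr_cod {f d k k' : BName (RO P)} (H : FInj p f d k) (h : p ∈ eqB k k') :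
    FInj p f d k' where
  fn := H.fn
  into x y q hq hy := Fr.mem_right (Fr.down h hq) (H.into x y q hq hy)
  inj := H.inj

/-- An isomorphism onto an initial segment does not change the names. -/
theorem ordW_seg {f : V → W} (hf : StrictMono f) (hi : ∀ v w, w < f v → ∃ v', f v' = w) (v : V) :
    p ∈ eqB (ordW (RO P) (f v)) (ordW (RO P) v) := by
  induction v using WellFoundedLT.induction generalizing p with
  | ind v ih =>
    refine Fr.ext ?_ ?_
    · intro z q hq hz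
      refine Fr.dense fun s hs => ?_
      obtain ⟨s1, hs1, w, hw, h1⟩ := Fw.ord_ex (Fr.down hz hs)
      obtain ⟨v', rfl⟩ := hi v w hw
      have hv : v' < v := hf.lt_iff_lt.1 hw
      exact ⟨s1, hs1, Fw.ord_mk hv (Fr.trans h1 (ih v' hv))⟩
    · intro z q hq hz
      refine Fr.dense fun s hs => ?_
      obtain ⟨s1, hs1, v', hv, h1⟩ := Fw.ord_ex (Fr.down hz hs)
      exact ⟨s1, hs1, Fw.ord_mk (hf hv) (Fr.trans h1 (Fr.symm (ih v' hv)))⟩

theorem kapW_seg {f : V → W} (hf : StrictMono f) {z : W} (hz : ∀ w, w < z ↔ ∃ v, f v = w) :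
    p ∈ eqB (ordW (RO P) z) (kapW (RO P) V) := by
  have hi : ∀ v w, w < f v → ∃ v', f v' = w := fun v w hw =>
    (hz w).1 (hw.trans ((hz _).2 ⟨v, rfl⟩))
  refine Fr.ext ?_ ?_
  · intro x q hq hx
    refine Fr.dense fun s hs => ?_
    obtain ⟨s1, hs1, w, hw, h1⟩ := Fw.ord_ex (Fr.down hx hs)
    obtain ⟨v, rfl⟩ := (hz w).1 hw
    exact ⟨s1, hs1, Fw.kap_mk v (Fr.trans h1 (ordW_seg hf hi v))⟩
  · intro x q hq hx
    refine Fr.dense fun s hs => ?_
    obtain ⟨s1, hs1, v, h1⟩ := Fw.kap_ex (Fr.down hx hs)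
    exact ⟨s1, hs1, Fw.ord_mk ((hz _).2 ⟨v, rfl⟩) (Fr.trans h1 (Fr.symm (ordW_seg hf hi v)))⟩

end Pool.Agent.CG3
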