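import Pool.Agent.Lib.MP_99c1f3_lc.CG.B.AlO

/-!
# CG3, module B.StL: `ℵ_ω` is a strong limit
-/

set_option autoImplicit false

namespace Pool.Agent.CG3

open Pool.Agent.MPa4e7db Pool.Agent.Lib.SymModel Pool.Agent.StarRoth.BV Pool.Agent.MP_5db68c_lc
open Pool.Agent.KSt

section

variable {P : Type 1} [Preorder P] {p : P}

namespace Fw

open Pool.Agent.KSt.Fr

/-- An injection given by a name with an arbitrary index type. -/
theorem inj_mk {ι : Type 1} {X Y : ι → BName (RO P)} {a : ι → RO P} {d k : BName (RO P)}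
    (h1 : ∀ i, ∀ q ≤ p, q ∈ a i → q ∈ memB (X i) d)
    (h2 : ∀ x, ∀ q ≤ p, q ∈ memB x d → ∃ r ≤ q, ∃ i, r ∈ a i ∧ r ∈ eqB x (X i))
    (h3 : ∀ i j, ∀ q ≤ p, q ∈ a i → q ∈ a j → q ∈ eqB (X i) (X j) → q ∈ eqB (Y i) (Y j))
    (h4 : ∀ i, ∀ q ≤ p, q ∈ a i → q ∈ memB (Y i) k)
    (h5 : ∀ i j, ∀ q ≤ p, q ∈ a i → q ∈ a j → q ∈ eqB (Y i) (Y j) → q ∈ eqB (X i) (X j)) :
    FInj p (BName.mk ι (fun i => opair (X i) (Y i)) a) d k where
  fn := fun_mk h1 h2 h3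
  into x y q hq hy := by
    refine dense fun q' hq' => ?_
    obtain ⟨r, hr, i, h6, h7, h8⟩ := rel_mk_ex (down hy hq')
    exact ⟨r, hr, mem_left (symm h8) (h4 i r (hr.trans (hq'.trans hq)) h6)⟩
  inj x x' y q hq hy hy' := by
    refine dense fun q' hq' => ?_
    obtain ⟨r, hr, i, h6, h7, h8⟩ := rel_mk_ex (down hy hq')
    obtain ⟨s, hs, j, h9, h10, h11⟩ := rel_mk_ex (down hy' (hr.trans hq'))
    refine ⟨s, hs.trans hr, ?_⟩
    exact trans (down h7 hs) (trans (h5 i j s (hs.trans (hr.trans (hq'.trans hq))) (down h6 hs) h9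
      (trans (symm (down h8 hs)) h11)) (symm h10))

end Fw

variable {W V : Type 1} [LinearOrder W] [WellFoundedLT W] [LinearOrder V] [WellFoundedLT V]

/-- The name of the set of the `ν : W` with the values `Y ν`. -/
noncomputable def setW (Y : W → RO P) : BName (RO P) := BName.mk W (ordW (RO P)) Y

theorem mem_setW {Y : W → RO P} {ν : W} : p ∈ memB (ordW (RO P) ν) (setW Y) ↔ p ∈ Y ν := by
  constructor
  · intro h
    refine Fr.dense fun q hq => ?_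
    obtain ⟨r, hr, ξ, h1, h2⟩ := Fr.mk_ex (Fr.down h hq)
    have := Fw.ord_inj h2
    subst this
    exact ⟨r, hr, h1⟩
  · intro h
    exact Fr.mk_mk ν h (Fr.refl _ _)

theorem setW_sub (Y : W → RO P) : p ∈ subB (setW Y) (kapW (RO P) W) := by
  refine Fr.sub_iff.2 fun z q hq hz => Fr.dense fun q' hq' => ?_
  obtain ⟨r, hr, ξ, h1, h2⟩ := Fr.mk_ex (Fr.down hz hq')
  exact ⟨r, hr, Fw.kap_mk ξ h2⟩

theorem setW_congr {Y Y' : W → RO P} (h : ∀ ν, ∀ q ≤ p, q ∈ Y ν ↔ q ∈ Y' ν) :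
    p ∈ eqB (setW Y) (setW Y') := by
  refine Fr.ext ?_ ?_
  · intro z q hq hz
    refine Fr.dense fun q' hq' => ?_
    obtain ⟨r, hr, ξ, h1, h2⟩ := Fr.mk_ex (Fr.down hz hq')
    exact ⟨r, hr, Fr.mk_mk ξ ((h ξ r (hr.trans (hq'.trans hq))).1 h1) h2⟩
  · intro z q hq hz
    refine Fr.dense fun q' hq' => ?_
    obtain ⟨r, hr, ξ, h1, h2⟩ := Fr.mk_ex (Fr.down hz hq')
    exact ⟨r, hr, Fr.mk_mk ξ ((h ξ r (hr.trans (hq'.trans hq))).2 h1) h2⟩

theorem eq_setW {x : BName (RO P)} (h : p ∈ subB x (kapW (RO P) W)) :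
    p ∈ eqB x (setW fun ν : W => memB (ordW (RO P) ν) x) := by
  refine Fr.ext ?_ ?_
  · intro z q hq hz
    refine Fr.dense fun q' hq' => ?_
    obtain ⟨r, hr, ξ, h1⟩ := Fw.kap_ex (Fr.sub_mp (Fr.down h (hq'.trans hq)) (Fr.down hz hq'))
    exact ⟨r, hr, Fr.mk_mk ξ (Fr.mem_left h1 (Fr.down hz (hr.trans hq'))) h1⟩
  · intro z q hq hz
    refine Fr.dense fun q' hq' => ?_
    obtain ⟨r, hr, ξ, h1, h2⟩ := Fr.mk_ex (Fr.down hz hq')
    exact ⟨r, hr, Fr.mem_left (Fr.symm h2) h1⟩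

/-- If `E` enumerates the subsets of `W`, then the power set of a subset `α` of `W` injects into
`V`. -/
theorem pow_inj {E : V → W → RO P} (hE : ∀ (Y : W → RO P) (q : P),
    ∃ r ≤ q, ∃ a, ∀ ν, ∀ s ≤ r, (s ∈ E a ν ↔ s ∈ Y ν)) {α c : BName (RO P)}
    (hα : p ∈ subB α (kapW (RO P) W)) (hc : ∀ x, ∀ t ≤ p, t ∈ memB x c ↔ t ∈ subB x α) :
    ∃ f, FInj p f c (kapW (RO P) V) := by
  let F : V → RO P := fun j => subB (setW (E j)) α ⊓
    ⨅ i : {i : V // i < j}, (eqB (setW (E i.1)) (setW (E j)))ᶜ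
  have hF : ∀ j r, r ∈ F j ↔ r ∈ subB (setW (E j)) α ∧
      ∀ i < j, r ∈ (eqB (setW (E i)) (setW (E j)))ᶜ := by
    intro j r
    show r ∈ subB (setW (E j)) α ⊓
      ⨅ i : {i : V // i < j}, (eqB (setW (E i.1)) (setW (E j)))ᶜ ↔ _
    rw [RO.mem_inf, RO.mem_iInf]
    exact ⟨fun h => ⟨h.1, fun b hb => h.2 ⟨b, hb⟩⟩, fun h => ⟨h.1, fun b => h.2 b.1 b.2⟩⟩
  refine ⟨_, Fw.inj_mk (ι := V) (X := fun j => setW (E j)) (Y := ordW (RO P)) (a := F)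
    ?_ ?_ ?_ ?_ ?_⟩
  · intro j q hq hj
    exact (hc _ q hq).2 ((hF j q).1 hj).1
  · intro x q hq hx
    have h1 : q ∈ subB x α := (hc x q hq).1 hx
    have h2 := Fr.sub_trans h1 (Fr.down hα hq)
    obtain ⟨r, hr, a, ha⟩ := hE (fun ν => memB (ordW (RO P) ν) x) q
    have h3 : r ∈ eqB x (setW (E a)) := Fr.trans (eq_setW (Fr.down h2 hr))
      (Fr.symm (setW_congr ha))
    obtain ⟨s, hs, j, h4, h5⟩ := least_w (F := fun j => eqB x (setW (E j))) ⟨r, le_rfl, a, h3⟩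
    refine ⟨s, hs.trans hr, j, (hF j s).2 ⟨?_, fun i hi => RO.mem_compl.2 fun t ht hti => ?_⟩, h4⟩
    · exact Fr.sub_congr h4 (Fr.refl _ _) (Fr.down h1 (hs.trans hr))
    · exact Fr.compl_mp (Fr.down (h5 i hi) ht) (Fr.trans (Fr.down h4 ht) (Fr.symm hti))
  · intro i j q hq hi hj h
    have ha := (hF _ _).1 hi
    have hb := (hF _ _).1 hj
    rcases lt_trichotomy i j with h1 | h1 | h1
    · exact (Fr.compl_mp (hb.2 i h1) h).elim
    · rw [h1]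
      exact Fr.refl _ _
    · exact (Fr.compl_mp (ha.2 j h1) (Fr.symm h)).elim
  · intro j q hq _
    exact Fw.mem_kap j
  · intro i j q hq _ _ h
    rw [Fw.ord_inj h]
    exact Fr.refl _ _

end

section

variable {P : Type 1} [Preorder P]

theorem ord_sub_kap {W : Type 1} [LinearOrder W] [WellFoundedLT W] {p : P} {w : W} :
    p ∈ subB (ordW (RO P) w) (kapW (RO P) W) := by
  refine Fr.sub_iff.2 fun z q hq hz => Fr.dense fun q' hq' => ?_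
  obtain ⟨r, hr, ξ, _, h2⟩ := Fw.ord_ex (Fr.down hz hq')
  exact ⟨r, hr, Fw.kap_mk ξ h2⟩

/-- `ℵ_ω` is forced to be a strong limit. -/
theorem stL (H : Facts P) (p : P) : FStL p (kapW (RO P) Zt) := by
  obtain ⟨z, hz, hc⟩ := exists_z P
  intro α q hq hα
  obtain ⟨r, hr, a, ha⟩ := Fw.kap_ex hα
  obtain ⟨m, hm'⟩ := hc a
  have hm : ∀ s : P, s ∈ subB (ordW (RO P) a) (kapW (RO P) (R m)) := fun s =>
    Fr.sub_iff.2 fun x t _ hx => Fr.mem_right (hz (m + 3) t) (Fw.ord_mono hm' hx)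
  refine ⟨r, hr, ordW (RO P) (z (m + 4)), Fw.mem_kap _, fun c s hs h => ?_⟩
  obtain ⟨E, hE⟩ := H.pow m
  obtain ⟨f, hf⟩ := pow_inj hE (Fr.sub_congr (Fr.symm (Fr.down ha hs)) (Fr.refl _ _) (hm s)) h
  exact ⟨s, le_rfl, f, FInj.congr_cod hf (Fr.symm (hz (m + 4) s))⟩

end

end Pool.Agent.CG3
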