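import Pool.Agent.Lib.MP_99c1f3_lc.CG.B.StL

/-!
# CG3, module B.Star1: the pairing, the clubs and the colouring
-/

set_option autoImplicit false

namespace Pool.Agent.CG3

open Pool.Agent.MPa4e7db Pool.Agent.Lib.SymModel Pool.Agent.StarRoth.BV Pool.Agent.MP_5db68c_lc
open Pool.Agent.KSt

variable {P : Type 1} [Preorder P] {p : P}

/-! ### Functions of the ground model -/

section

variable {V W : Type 1} [LinearOrder V] [WellFoundedLT V] [LinearOrder W] [WellFoundedLT W]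

/-- The name of the function `l` of the ground model. -/
noncomputable def gfN (P : Type 1) [Preorder P] (l : V → W) : BName (RO P) :=
  BName.mk V (fun ν => opair (ordW (RO P) ν) (ordW (RO P) (l ν))) (fun _ => ⊤)

theorem gfN_ex {l : V → W} {x y : BName (RO P)} (h : p ∈ relB (gfN P l) x y) :
    ∃ q ≤ p, ∃ ν, q ∈ eqB x (ordW (RO P) ν) ∧ q ∈ eqB y (ordW (RO P) (l ν)) := by
  obtain ⟨q, hq, ν, _, h1, h2⟩ := Fr.rel_mk_ex h
  exact ⟨q, hq, ν, h1, h2⟩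

theorem gfN_mk {l : V → W} {x y : BName (RO P)} (ν : V) (h1 : p ∈ eqB x (ordW (RO P) ν))
    (h2 : p ∈ eqB y (ordW (RO P) (l ν))) : p ∈ relB (gfN P l) x y :=
  Fr.rel_mk_mk ν (RO.mem_top p) h1 h2

end

/-! ### The pairing -/

theorem exists_pairL : ∃ g : L × L → L, Function.Injective g := by
  have h1 : Cardinal.mk L = Order.succ kap := Cardinal.mk_ord_toType _
  have h2 : Cardinal.aleph0 ≤ Order.succ kap :=
    (Cardinal.aleph0_le_mk K0).trans (Order.le_succ kap)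
  have h3 : Cardinal.mk (L × L) ≤ Cardinal.mk L := by
    rw [Cardinal.mk_prod, Cardinal.lift_id, h1, Cardinal.mul_eq_self h2]
  obtain ⟨e⟩ := (Cardinal.le_def _ _).1 h3
  exact ⟨e, e.injective⟩

theorem pairing_of {W : Type 1} [LinearOrder W] [WellFoundedLT W] {g : W × W → W}
    (hg : Function.Injective g) : FPairing p (BName.mk (W × W)
      (fun i => opair (opair (ordW (RO P) i.1) (ordW (RO P) i.2)) (ordW (RO P) (g i)))
      (fun _ => ⊤)) (kapW (RO P) W) where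
  tot a b q hq ha hb := by
    obtain ⟨r, hr, a', h1⟩ := Fw.kap_ex ha
    obtain ⟨s, hs, b', h2⟩ := Fw.kap_ex (Fr.down hb hr)
    refine ⟨s, hs.trans hr, ordW (RO P) (g (a', b')), Fw.mem_kap _, ?_⟩
    exact Fr.rel_mk_mk (ι := W × W) (a', b') (RO.mem_top s)
      (Fr.opair_iff.2 ⟨Fr.down h1 hs, h2⟩) (Fr.refl _ _)
  inj a b a' b' c q hq h h' := by
    rw [← RO.mem_inf]
    refine Fr.dense fun r hr => ?_
    obtain ⟨s, hs, i, _, h1, h2⟩ := Fr.rel_mk_ex (ι := W × W) (Fr.down h hr)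
    obtain ⟨t, ht, j, _, h3, h4⟩ := Fr.rel_mk_ex (ι := W × W) (Fr.down h' (hs.trans hr))
    have hij : i = j := hg (Fw.ord_inj (Fr.trans (Fr.symm (Fr.down h2 ht)) h4))
    subst hij
    have h5 := Fr.opair_iff.1 (Fr.trans (Fr.down h1 ht) (Fr.symm h3))
    exact ⟨t, ht.trans hs, RO.mem_inf.2 h5⟩

/-! ### The clubs -/

/-- The name of the relation with the values `F x ν` between ordinals. -/
noncomputable abbrev oR {V W : Type 1} [LinearOrder V] [WellFoundedLT V] [LinearOrder W]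
    [WellFoundedLT W] (F : V → W → RO P) : BName (RO P) :=
  Fw.relN (ordW (RO P)) (ordW (RO P)) F

section

variable {V W : Type 1} [LinearOrder V] [WellFoundedLT V] [LinearOrder W] [WellFoundedLT W]

theorem oR_ex {F : V → W → RO P} {x y : BName (RO P)} {x' : V} {y' : W}
    (hx : p ∈ eqB x (ordW (RO P) x')) (hy : p ∈ eqB y (ordW (RO P) y'))
    (h : p ∈ relB (oR F) x y) : p ∈ F x' y' := by
  refine Fr.dense fun q hq => ?_
  obtain ⟨r, hr, i, j, h1, h2, h3⟩ := Fw.relN_ex (Fr.down h hq)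
  have hi : x' = i := Fw.ord_inj (Fr.trans (Fr.symm (Fr.down hx (hr.trans hq))) h2)
  have hj : y' = j := Fw.ord_inj (Fr.trans (Fr.symm (Fr.down hy (hr.trans hq))) h3)
  subst hi hj
  exact ⟨r, hr, h1⟩

theorem club_of {D : V → W → RO P} (h1 : ∀ x α q, ∃ r ≤ q, ∃ γ, α < γ ∧ r ∈ D x γ)
    (h2 : ∀ x γ, (∃ α, α < γ) → ∀ q, (∀ α < γ, ∀ q' ≤ q, ∃ r ≤ q', ∃ β, α < β ∧ β < γ ∧
      r ∈ D x β) → q ∈ D x γ) :
    FClub p (oR D) (kapW (RO P) W) (kapW (RO P) V) where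
  sub x γ q hq h := by
    refine Fr.dense fun r hr => ?_
    obtain ⟨s, hs, i, j, _, _, h3⟩ := Fw.relN_ex (Fr.down h hr)
    exact ⟨s, hs, Fw.kap_mk j h3⟩
  unb x α q hq hx hα := by
    obtain ⟨r, hr, x', h3⟩ := Fw.kap_ex hx
    obtain ⟨s, hs, a, h4⟩ := Fw.kap_ex (Fr.down hα hr)
    obtain ⟨t, ht, γ, h5, h6⟩ := h1 x' a s
    refine ⟨t, ht.trans (hs.trans hr), ordW (RO P) γ, ?_, ?_⟩
    · exact Fw.relN_mk x' γ h6 (Fr.down h3 (ht.trans hs)) (Fr.refl _ _)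
    · exact Fr.mem_left (Fr.symm (Fr.down h4 ht)) (Fw.ord_mem_ord.2 h5)
  clo x γ q hq hx hγ hne hcl := by
    refine Fr.dense fun q' hq' => ?_
    obtain ⟨r, hr, x', h3⟩ := Fw.kap_ex (Fr.down hx hq')
    obtain ⟨s, hs, g, h4⟩ := Fw.kap_ex (Fr.down hγ (hr.trans hq'))
    have hsq : s ≤ q := hs.trans (hr.trans hq')
    refine ⟨s, hs.trans hr, Fw.relN_mk x' g (h2 x' g ?_ s ?_) (Fr.down h3 hs) h4⟩
    · obtain ⟨t, ht, α, h5⟩ := hne s hsq
      obtain ⟨_, _, v, hv, _⟩ := Fw.ord_ex (Fr.mem_right (Fr.down h4 ht) h5)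
      exact ⟨v, hv⟩
    · intro a ha t ht
      obtain ⟨t1, ht1, β, h5, h6, h7⟩ := hcl (ordW (RO P) a) t (ht.trans hsq)
        (Fr.mem_right (Fr.symm (Fr.down h4 ht)) (Fw.ord_mem_ord.2 ha))
      obtain ⟨t2, ht2, b, hb, h8⟩ := Fw.ord_ex (Fr.mem_right (Fr.down h4 (ht1.trans ht)) h6)
      refine ⟨t2, ht2.trans ht1, b, ?_, hb, ?_⟩
      · exact Fw.ord_mem_ord.1 (Fr.mem_right h8 (Fr.down h7 ht2))
      · exact oR_ex (Fr.down h3 (ht2.trans (ht1.trans (ht.trans hs)))) h8 (Fr.down h5 ht2)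

/-! ### The colouring -/

theorem sCol_of {K : Type 1} [LinearOrder K] [WellFoundedLT K] {e : V → K → RO P}
    (h : ∀ b : K, ∃ c : V → K → RO P, (∀ q, FnlB q c) ∧ (∀ q x, ∃ r ≤ q, ∃ ξ, r ∈ c x ξ) ∧
      ∀ q x y ξ, x ≠ y → q ∈ c x ξ → q ∈ c y ξ → ∃ r ≤ q, (∀ γ, ¬ γ < b) ∨ ∃ γ < b,
        ∀ ν < b, γ < ν → ∀ s ≤ r, s ∈ e x ν → s ∉ e y ν) :
    FSCol p (oR e) (kapW (RO P) K) (kapW (RO P) V) := by
  intro b q hq hb
  obtain ⟨r, hr, b', h1⟩ := Fw.kap_ex hb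
  obtain ⟨c, hc1, hc2, hc3⟩ := h b'
  refine ⟨r, hr, oR c, ?_, ?_⟩
  · refine Fr.into_iff.2 ⟨Fw.relN_fun ?_ ?_ ?_, ?_⟩
    · intro i j s _ _
      exact Fw.mem_kap i
    · intro x s hs hx
      obtain ⟨t, ht, x', h2⟩ := Fw.kap_ex hx
      obtain ⟨t', ht', ξ, h3⟩ := hc2 t x'
      exact ⟨t', ht'.trans ht, x', ξ, h3, Fr.down h2 ht'⟩
    · intro i j i' j' s hs h2 h3 h4
      have hi := Fw.ord_inj h4
      subst hi
      rw [hc1 s i j j' s le_rfl h2 h3]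
      exact Fr.refl _ _
    · intro x y s hs hy
      refine Fr.dense fun t ht => ?_
      obtain ⟨t', ht', i, j, _, _, h3⟩ := Fw.relN_ex (Fr.down hy ht)
      exact ⟨t', ht', Fw.kap_mk j h3⟩
  · rintro x y n s hs h2 h3 hne ⟨h4, h5⟩
    obtain ⟨s1, hs1, x', n', h6, h7, h8⟩ := Fw.relN_ex h2
    obtain ⟨s2, hs2, y', m', h9, h10, h11⟩ := Fw.relN_ex (Fr.down h3 hs1)
    have hnm : n' = m' := Fw.ord_inj (Fr.trans (Fr.symm (Fr.down h8 hs2)) h11)
    subst hnm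
    have hxy : x' ≠ y' := by
      intro he
      subst he
      exact hne s2 (hs2.trans hs1) (Fr.trans (Fr.down h7 hs2) (Fr.symm h10))
    have hs2r : s2 ≤ r := hs2.trans (hs1.trans hs)
    obtain ⟨t, ht, h12 | ⟨γ, hγ, h12⟩⟩ := hc3 s2 x' y' n' hxy (Fr.down h6 hs2) h9
    · obtain ⟨t', ht', α, h13⟩ := h4 t (ht.trans (hs2.trans hs1))
      obtain ⟨_, _, v, hv, _⟩ := Fw.ord_ex
        (Fr.mem_right (Fr.down h1 (ht'.trans (ht.trans hs2r))) h13)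
      exact h12 v hv
    · obtain ⟨t', ht', ν, h13, h14, h15, h16⟩ := h5 (ordW (RO P) γ) t
        (ht.trans (hs2.trans hs1))
        (Fr.mem_right (Fr.symm (Fr.down h1 (ht.trans hs2r))) (Fw.ord_mem_ord.2 hγ))
      obtain ⟨t2, ht2, m, hm, h17⟩ := Fw.ord_ex
        (Fr.mem_right (Fr.down h1 (ht'.trans (ht.trans hs2r))) h13)
      have ht2s : t2 ≤ s2 := ht2.trans (ht'.trans ht)
      refine h12 m hm ?_ t2 (ht2.trans ht') ?_ ?_
      · exact Fw.ord_mem_ord.1 (Fr.mem_right h17 (Fr.down h14 ht2))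
      · exact oR_ex (Fr.down h7 (ht2s.trans hs2)) h17 (Fr.down h15 ht2)
      · exact oR_ex (Fr.down h10 ht2s) h17 (Fr.down h16 ht2)

end

end Pool.Agent.CG3
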