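import Pool.Agent.Lib.MP_99c1f3_lc.CG.B.Star1
import Pool.Agent.Lib.MP_99c1f3_lc.CG.B.Cof

/-!
# CG3, module B.Star2: ladders and countable unbounded sets
-/

set_option autoImplicit false

namespace Pool.Agent.CG3

open Pool.Agent.MPa4e7db Pool.Agent.Lib.SymModel Pool.Agent.StarRoth.BV Pool.Agent.MP_5db68c_lc
open Pool.Agent.KSt

variable {P : Type 1} [Preorder P] {p : P}

theorem FLad.congr_d {l o d d' : BName (RO P)} (H : FLad p l o d) (h : p ∈ eqB d d') :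
    FLad p l o d' where
  fn := Fr.into_iff.2 ⟨(Fr.into_iff.1 H.fn).1, fun x y q hq hy =>
    Fr.mem_right (Fr.down h hq) ((Fr.into_iff.1 H.fn).2 x y q hq hy)⟩
  mono := H.mono
  cof α q hq hα := H.cof α q hq (Fr.mem_right (Fr.symm (Fr.down h hq)) hα)
  cont := H.cont

theorem FCU.congr_d {A d d' w : BName (RO P)} (H : FCU p A d w) (h : p ∈ eqB d d') :
    FCU p A d' w where
  sub := Fr.sub_congr (Fr.refl _ _) h H.sub
  ctbl := H.ctbl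
  unb α q hq hα := H.unb α q hq (Fr.mem_right (Fr.symm (Fr.down h hq)) hα)

theorem lim_of {W : Type 1} [LinearOrder W] [WellFoundedLT W] {ν : BName (RO P)} {n : W}
    (h : p ∈ eqB ν (ordW (RO P) n)) (H : FLim p ν ν) : (∃ α, α < n) ∧ ∀ α < n, ∃ β < n, α < β := by
  constructor
  · obtain ⟨r, hr, α, h1⟩ := H.ex p le_rfl
    obtain ⟨_, _, v, hv, _⟩ := Fw.ord_ex (Fr.mem_right (Fr.down h hr) h1)
    exact ⟨v, hv⟩
  · intro α hα
    obtain ⟨r, hr, β, h1, _, h3⟩ := H.unb (ordW (RO P) α) p le_rfl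
      (Fr.mem_right (Fr.symm h) (Fw.ord_mem_ord.2 hα))
    obtain ⟨s, hs, b, hb, h4⟩ := Fw.ord_ex (Fr.mem_right (Fr.down h hr) h1)
    exact ⟨b, hb, Fw.ord_mem_ord.1 (Fr.mem_right h4 (Fr.down h3 hs))⟩

theorem lad_of {d : L} {l : K0 → L} (H : IsLad d l) (p : P) :
    FLad p (gfN P l) (kapW (RO P) K0) (ordW (RO P) d) where
  fn := by
    refine Fr.into_iff.2 ⟨Fr.fun_mk ?_ ?_ ?_, ?_⟩
    · intro i q _ _
      exact Fw.mem_kap i
    · intro x q _ hx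
      obtain ⟨r, hr, ν, h⟩ := Fw.kap_ex hx
      exact ⟨r, hr, ν, RO.mem_top r, h⟩
    · intro i j q _ _ _ h
      rw [Fw.ord_inj h]
      exact Fr.refl _ _
    · intro x y q _ hy
      refine Fr.dense fun r hr => ?_
      obtain ⟨s, hs, ν, _, h2⟩ := gfN_ex (Fr.down hy hr)
      exact ⟨s, hs, Fw.ord_mk (H.lt ν) h2⟩
  mono ν ν' γ γ' q _ h h' hlt := by
    refine Fr.dense fun r hr => ?_
    obtain ⟨s, hs, n, h1, h2⟩ := gfN_ex (Fr.down h hr)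
    obtain ⟨t, ht, n', h3, h4⟩ := gfN_ex (Fr.down h' (hs.trans hr))
    have h5 : n < n' := Fw.ord_mem_ord.1 (Fr.mem_right h3 (Fr.mem_left (Fr.down h1 ht)
      (Fr.down hlt (ht.trans (hs.trans hr)))))
    exact ⟨t, ht.trans hs, Fr.mem_left (Fr.symm (Fr.down h2 ht))
      (Fr.mem_right (Fr.symm h4) (Fw.ord_mem_ord.2 (H.mono h5)))⟩
  cof α q _ hα := by
    obtain ⟨r, hr, a, ha, h1⟩ := Fw.ord_ex hα
    obtain ⟨ν, hν⟩ := H.cof a ha
    exact ⟨r, hr, ordW (RO P) ν, ordW (RO P) (l ν), gfN_mk ν (Fr.refl _ _) (Fr.refl _ _),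
      Fr.mem_left (Fr.symm h1) (Fw.ord_mem_ord.2 hν)⟩
  cont ν γ α q _ h hlim hα := by
    obtain ⟨r, hr, n, h1, h2⟩ := gfN_ex h
    obtain ⟨s, hs, a, ha, h3⟩ := Fw.ord_ex (Fr.mem_right h2 (Fr.down hα hr))
    have hsq : s ≤ q := hs.trans hr
    obtain ⟨⟨b, hb⟩, hn⟩ := lim_of (Fr.down h1 hs) ⟨fun t ht => hlim.ex t (ht.trans hsq),
      fun α t ht => hlim.unb α t (ht.trans hsq)⟩
    have hlimn : Order.IsSuccLimit n := by
      refine ⟨not_isMin_of_lt hb, fun c hc => ?_⟩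
      obtain ⟨c', hc', h4⟩ := hn c hc.lt
      exact hc.2 h4 hc'
    obtain ⟨n', hn', h4⟩ := H.cont n hlimn a ha
    exact ⟨s, hsq, ordW (RO P) n', ordW (RO P) (l n'),
      Fr.mem_right (Fr.symm (Fr.down h1 hs)) (Fw.ord_mem_ord.2 hn'),
      gfN_mk n' (Fr.refl _ _) (Fr.refl _ _),
      Fr.mem_left (Fr.symm h3) (Fw.ord_mem_ord.2 h4)⟩

/-- A name of a function from `A` onto `S` gives an injection of `S` into `A`. -/
theorem onto_injS {A W : Type 1} [LinearOrder A] [WellFoundedLT A] [LinearOrder W]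
    [WellFoundedLT W] {S : Set W} (H : OntoB P A S) :
    ∃ f, ∀ p : P, FInj p f (BName.mk S (fun i => ordW (RO P) i.1) (fun _ => ⊤))
      (kapW (RO P) A) := by
  obtain ⟨F, h1, h2⟩ := H
  let G : S → A → RO P := fun i a => F a i ⊓ ⨅ b : {b : A // b < a}, (F b.1 i)ᶜ
  have hG : ∀ i a r, r ∈ G i a ↔ r ∈ F a i ∧ ∀ b < a, r ∈ (F b i)ᶜ := by
    intro i a r
    show r ∈ F a i ⊓ ⨅ b : {b : A // b < a}, (F b.1 i)ᶜ ↔ _
    rw [RO.mem_inf, RO.mem_iInf]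
    exact ⟨fun h => ⟨h.1, fun b hb => h.2 ⟨b, hb⟩⟩, fun h => ⟨h.1, fun b => h.2 b.1 b.2⟩⟩
  refine ⟨Fw.relN (fun i : S => ordW (RO P) i.1) (ordW (RO P)) G,
    fun p => Fw.relN_inj ?_ ?_ ?_ ?_ ?_⟩
  · intro i a q hq _
    exact Fr.mk_mk i (RO.mem_top q) (Fr.refl _ _)
  · intro x q hq hx
    obtain ⟨r, hr, i, _, h3⟩ := Fr.mk_ex hx
    obtain ⟨s, hs, a, h4⟩ := least_w (F := fun a => F a i) (h2 r i)
    exact ⟨s, hs.trans hr, i, a, (hG _ _ _).2 h4, Fr.down h3 hs⟩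
  · intro i a i' a' q hq h3 h4 h5
    have hi : i = i' := Subtype.ext (Fw.ord_inj h5)
    subst hi
    have ha := (hG _ _ _).1 h3
    have hb := (hG _ _ _).1 h4
    rcases lt_trichotomy a a' with h | h | h
    · exact (Fr.compl_mp (hb.2 a h) ha.1).elim
    · rw [h]
      exact Fr.refl _ _
    · exact (Fr.compl_mp (ha.2 a' h) hb.1).elim
  · intro i a q hq _
    exact Fw.mem_kap a
  · intro i a i' a' q hq h3 h4 h5
    have haa : a = a' := Fw.ord_inj h5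
    subst haa
    have hi : i = i' := h1 q a i i' q le_rfl ((hG _ _ _).1 h3).1 ((hG _ _ _).1 h4).1
    rw [hi]
    exact Fr.refl _ _

theorem ontoB_comp {A B C : Type 1} (H : OntoB P A B) (g : B → C)
    (hg : Function.Surjective g) : OntoB P A C := by
  obtain ⟨F, h1, h2⟩ := H
  refine ⟨fun a c => ⨆ b : {b : B // g b = c}, F a b.1, fun q a c c' r hr h3 h4 => ?_,
    fun q c => ?_⟩
  · obtain ⟨s, hs, b, hb⟩ := Fr.iSup_ex h3
    obtain ⟨t, ht, b', hb'⟩ := Fr.iSup_ex (Fr.down h4 hs)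
    have := h1 t a b.1 b'.1 t le_rfl (Fr.down hb ht) hb'
    rw [← b.2, ← b'.2, this]
  · obtain ⟨b, rfl⟩ := hg c
    obtain ⟨r, hr, a, ha⟩ := h2 q b
    exact ⟨r, hr, a, Fr.iSup_mk (⟨b, rfl⟩ : {b' : B // g b' = g b}) ha⟩

theorem cu_of (H0 : ∀ α : K0, OntoB P ℕ (Set.Iio α)) {d : L} {α : K0} {f : Set.Iio α → L}
    (hf : ∀ i, f i < d) (hc : ∀ a < d, ∃ i, a < f i) (p : P) :
    FCU p (BName.mk (Set.range f) (fun i => ordW (RO P) i.1) (fun _ => ⊤)) (ordW (RO P) d)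
      omegaN where
  sub := by
    refine Fr.sub_iff.2 fun z q _ hz => Fr.dense fun r hr => ?_
    obtain ⟨s, hs, ⟨_, i, rfl⟩, _, h⟩ := Fr.mk_ex (Fr.down hz hr)
    exact ⟨s, hs, Fw.ord_mk (hf i) h⟩
  ctbl q _ := by
    obtain ⟨g, hg⟩ := onto_injS (ontoB_comp (ontoB_up (H0 α)) (Set.rangeFactorization f)
      Set.rangeFactorization_surjective)
    exact ⟨q, le_rfl, g, FInj.congr_cod (hg q) Fw.omega_eq⟩
  unb α q _ hα := by
    obtain ⟨r, hr, a, ha, h1⟩ := Fw.ord_ex hα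
    obtain ⟨i, hi⟩ := hc a ha
    refine ⟨r, hr, ordW (RO P) (f i), ?_, Fr.mem_left (Fr.symm h1) (Fw.ord_mem_ord.2 hi)⟩
    exact Fr.mk_mk (⟨f i, i, rfl⟩ : Set.range f) (RO.mem_top r) (Fr.refl _ _)

/-- The ladder part of the principle. -/
theorem sLad_of (H0 : ∀ α : K0, OntoB P ℕ (Set.Iio α)) {e : Ix → K0 → RO P} {D : Ix → L → RO P}
    (H : ∀ d : L, (∃ l, IsLad d l) → ∀ q, ∃ r ≤ q, ∃ l, IsLad d l ∧
      ∀ x, ∀ s ≤ r, ∃ t ≤ s, ∃ β, ∀ ν, β < ν → ∀ t' ≤ t, t' ∈ D x (l ν) → t' ∈ e x ν) (p : P) :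
    FSLad p (oR e) (oR D) omegaN (kapW (RO P) K0) (kapW (RO P) L) (kapW (RO P) (R 0)) := by
  intro d q _ hd hlim
  obtain ⟨r, hr, d', h1⟩ := Fw.kap_ex hd
  obtain ⟨h2, h3⟩ := lim_of h1 ⟨fun t ht => hlim.ex t (ht.trans hr),
    fun α t ht => hlim.unb α t (ht.trans hr)⟩
  rcases ladder_or_small d' h2 h3 with hl | ⟨α, f, hf, hc⟩
  · obtain ⟨s, hs, l, hl', hx⟩ := H d' hl r
    refine ⟨s, hs.trans hr, Or.inr ⟨gfN P l, (lad_of hl' s).congr_d (Fr.symm (Fr.down h1 hs)),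
      fun x t ht hxt => ?_⟩⟩
    obtain ⟨t1, ht1, x', h4⟩ := Fw.kap_ex hxt
    obtain ⟨t2, ht2, β, h5⟩ := hx x' t1 (ht1.trans ht)
    refine ⟨t2, ht2.trans ht1, ordW (RO P) β, Fw.mem_kap β, fun ν γ t3 ht3 h6 h7 h8 => ?_⟩
    refine Fr.dense fun t4 ht4 => ?_
    obtain ⟨t5, ht5, n, h9, h10⟩ := gfN_ex (Fr.down h6 ht4)
    have h53 : t5 ≤ t3 := ht5.trans ht4
    have h52 : t5 ≤ t2 := h53.trans ht3
    have h11 : β < n := Fw.ord_mem_ord.1 (Fr.mem_right h9 (Fr.down h7 h53))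
    have h12 : t5 ∈ D x' (l n) := oR_ex (Fr.down h4 (h52.trans ht2)) h10 (Fr.down h8 h53)
    exact ⟨t5, ht5, Fw.relN_mk x' n (h5 n h11 t5 h52 h12) (Fr.down h4 (h52.trans ht2)) h9⟩
  · exact ⟨r, hr, Or.inl ⟨_, (cu_of H0 hf hc r).congr_d (Fr.symm h1)⟩⟩

theorem FPairing.congr {g o o' : BName (RO P)} (H : FPairing p g o) (h : p ∈ eqB o o') :
    FPairing p g o' where
  tot a b q hq ha hb := by
    obtain ⟨r, hr, c, h1, h2⟩ := H.tot a b q hq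
      (Fr.mem_right (Fr.symm (Fr.down h hq)) ha) (Fr.mem_right (Fr.symm (Fr.down h hq)) hb)
    exact ⟨r, hr, c, Fr.mem_right (Fr.down h (hr.trans hq)) h1, h2⟩
  inj := H.inj

/-- The principle. -/
theorem star_of (H : Facts P) (p : P) : ∃ g₀ g E D, FStar p g₀ g E D omegaN (kapW (RO P) K0)
    (kapW (RO P) L) (kapW (RO P) (R 0)) := by
  obtain ⟨e, D, h1, h2, h3, h4⟩ := H.star
  obtain ⟨g, hg⟩ := exists_pairL
  have hg0 : Function.Injective (fun i : ULift.{1} ℕ × ULift.{1} ℕ =>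
      (ULift.up (Nat.pair i.1.down i.2.down) : ULift.{1} ℕ)) := by
    rintro ⟨⟨a⟩, ⟨b⟩⟩ ⟨⟨c⟩, ⟨d⟩⟩ h
    have h5 : Nat.pair a b = Nat.pair c d := congrArg ULift.down h
    obtain ⟨h6, h7⟩ := Nat.pair_eq_pair.1 h5
    rw [h6, h7]
  exact ⟨_, _, oR e, oR D, (pairing_of hg0).congr Fw.omega_eq, pairing_of hg, club_of h1 h2,
    sLad_of H.col0 h3 p, sCol_of h4⟩

end Pool.Agent.CG3
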