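import Pool.Agent.Lib.MP_99c1f3_lc.CG.B.Inj

/-!
# CG3, module B.Succ: the successor cardinals
-/

set_option autoImplicit false

namespace Pool.Agent.CG3

open Pool.Agent.MPa4e7db Pool.Agent.Lib.SymModel Pool.Agent.StarRoth.BV Pool.Agent.MP_5db68c_lc
open Pool.Agent.KSt

variable {P : Type 1} [Preorder P]

theorem FSucc.congr_right {p : P} {o' o k : BName (RO P)} (H : FSucc p o' o) (h : p ∈ eqB o k) :
    FSucc p o' k where
  ord := H.ord
  no q hq f hf := H.no q hq f (FInj.congr_cod hf (Fr.symm (Fr.down h hq)))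
  le α q hq hα := by
    obtain ⟨r, hr, f, hf⟩ := H.le α q hq hα
    exact ⟨r, hr, f, FInj.congr_cod hf (Fr.down h (hr.trans hq))⟩

theorem succ0 (H : Facts P) (p : P) : FSucc p (kapW (RO P) K0) omegaN :=
  (succ_of (bddB_up H.bdd0) (fun α => onto_inj (ontoB_up (H.col0 α))) p).congr_right Fw.omega_eq

/-- The predecessors of an element of `L` inject into `K0`. -/
theorem exists_injL (d : L) : ∃ g : {x : L // x < d} → K0, Function.Injective g := by
  have h1 : Cardinal.mk {x : L // x < d} < Order.succ kap := Cardinal.mk_Iio_toType_ord_lt d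
  have h2 : Cardinal.mk {x : L // x < d} ≤ Cardinal.mk K0 := Order.lt_succ_iff.1 h1
  obtain ⟨e⟩ := Cardinal.le_def _ _ |>.1 h2
  exact ⟨e, e.injective⟩

theorem succ1 (H : Facts P) (p : P) : FSucc p (kapW (RO P) L) (kapW (RO P) K0) :=
  succ_of H.bdd1 (fun d => by
    obtain ⟨g, hg⟩ := exists_injL d
    exact gnd_inj d g hg) p

theorem succ2 (H : Facts P) (p : P) : FSucc p (kapW (RO P) (R 0)) (kapW (RO P) L) :=
  succ_of H.bdd2 (fun r => onto_inj (H.col2 r)) p

theorem succ3 (H : Facts P) (n : ℕ) (p : P) :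
    FSucc p (kapW (RO P) (R (n + 1))) (kapW (RO P) (R n)) :=
  succ_of (H.bdd3 n) (fun r => onto_inj (H.col3 n r)) p

end Pool.Agent.CG3
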